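import Mathlib

/-! Weighted integrals from upper bounds on the cells of a grid. -/

set_option autoImplicit false

open Filter Topology Set MeasureTheory

namespace Pool.Agent.L5helper66.PVP

lemma unif_on (K : ℝ → ℝ) (hK : Continuous K) (a b ε : ℝ) (hε : 0 < ε) :
    ∃ δ : ℝ, 0 < δ ∧ ∀ x ∈ Icc a b, ∀ y ∈ Icc a b, |x - y| ≤ δ → |K x - K y| ≤ ε := by
  have h := (isCompact_Icc (a := a) (b := b)).uniformContinuousOn_of_continuous hK.continuousOn
  rw [Metric.uniformContinuousOn_iff] at h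
  obtain ⟨δ, hδ, h⟩ := h ε hε
  refine ⟨δ / 2, by positivity, fun x hx y hy hxy => ?_⟩
  have := h x hx y hy (by rw [Real.dist_eq]; linarith)
  rw [Real.dist_eq] at this
  exact this.le

lemma bd_on (K : ℝ → ℝ) (hK : Continuous K) (a b : ℝ) : ∃ B : ℝ, 0 ≤ B ∧ ∀ x ∈ Icc a b, K x ≤ B := by
  obtain ⟨B, hB⟩ := (isCompact_Icc (a := a) (b := b)).exists_bound_of_continuousOn hK.continuousOn
  refine ⟨max B 0, le_max_right _ _, fun x hx => ?_⟩
  have := hB x hx
  rw [Real.norm_eq_abs] at this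
  exact ((le_abs_self _).trans this).trans (le_max_left _ _)

theorem step_bd (K φ : ℝ → ℝ) (a b : ℝ) (hab : a < b) (hK : Continuous K) (hK0 : ∀ α, 0 ≤ K α)
    (hφ : Continuous φ) (hφ0 : ∀ α ∈ Icc a b, 0 ≤ φ α) (ε : ℝ) (hε : 0 < ε) :
    ∃ (m : ℕ) (δ : ℝ), 0 < m ∧ 0 < δ ∧ ∀ f : ℝ → ℝ, (∀ α ∈ Icc a b, 0 ≤ f α) → IntervalIntegrable f volume a b →
      (∀ i < m, ∫ α in (a + i * ((b - a) / m))..(a + (i + 1 : ℕ) * ((b - a) / m)), f α ≤
        φ (a + (i + 1 : ℕ) * ((b - a) / m)) * ((b - a) / m) + δ) →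
      ∫ α in a..b, K α * f α ≤ (∫ α in a..b, K α * φ α) + ε := by
  have hba : 0 < b - a := by linarith
  obtain ⟨B, hB0, hB⟩ := bd_on K hK a b
  obtain ⟨M, hM0, hM⟩ := bd_on φ hφ a b
  set η : ℝ := ε / (4 * (M + 1) * (b - a)) with hη
  have hη0 : 0 < η := by rw [hη]; positivity
  obtain ⟨δ1, hδ1, hu1⟩ := unif_on K hK a b η hη0
  obtain ⟨δ2, hδ2, hu2⟩ := unif_on (fun α => K α * φ α) (hK.mul hφ) a b η hη0
  obtain ⟨m, hm⟩ := exists_nat_gt (max ((b - a) / δ1) ((b - a) / δ2))
  have hm1 : (b - a) / δ1 < m := (le_max_left _ _).trans_lt hm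
  have hm2 : (b - a) / δ2 < m := (le_max_right _ _).trans_lt hm
  have hm0 : (0 : ℝ) < m := lt_of_le_of_lt (by positivity) hm1
  have hmN : 0 < m := by exact_mod_cast hm0
  have hs1 : (b - a) / m ≤ δ1 := by
    rw [div_lt_iff₀ hδ1] at hm1
    rw [div_le_iff₀ hm0]; linarith
  have hs2 : (b - a) / m ≤ δ2 := by
    rw [div_lt_iff₀ hδ2] at hm2
    rw [div_le_iff₀ hm0]; linarith
  set h : ℝ := (b - a) / m with hh
  have hh0 : 0 < h := by rw [hh]; positivity
  have hmh : m * h = b - a := by rw [hh]; field_simp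
  set δ : ℝ := ε / (4 * m * (B + η + 1)) with hδ
  have hδ0 : 0 < δ := by rw [hδ]; positivity
  refine ⟨m, δ, hmN, hδ0, fun f hf0 hfi hcell => ?_⟩
  have hpt : ∀ i : ℕ, i ≤ m → a + i * h ∈ Icc a b := by
    intro i hi
    have hi' : (i : ℝ) ≤ m := by exact_mod_cast hi
    have h2 : (i : ℝ) * h ≤ m * h := mul_le_mul_of_nonneg_right hi' hh0.le
    have h3 : 0 ≤ (i : ℝ) * h := by positivity
    constructor <;> linarith
  have hKf : IntervalIntegrable (fun α => K α * f α) volume a b := hfi.continuousOn_mul hK.continuousOn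
  have hKφ : ∀ x y : ℝ, IntervalIntegrable (fun α => K α * φ α) volume x y := fun x y =>
    (hK.mul hφ).intervalIntegrable _ _
  have hsubi : ∀ i : ℕ, i < m → ∀ g : ℝ → ℝ, IntervalIntegrable g volume a b →
      IntervalIntegrable g volume (a + i * h) (a + (i + 1 : ℕ) * h) := by
    intro i hi g hg
    apply hg.mono_set
    rw [uIcc_of_le hab.le]
    exact (uIcc_subset_Icc (hpt i hi.le) (hpt (i + 1) hi))
  have hstep : ∀ i : ℕ, a + (i + 1 : ℕ) * h - (a + i * h) = h := by intro i; push_cast; ring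
  have main : ∀ i ∈ Finset.range m, ∫ α in (a + i * h)..(a + (i + 1 : ℕ) * h), K α * f α ≤
      (∫ α in (a + i * h)..(a + (i + 1 : ℕ) * h), K α * φ α) + (η * h + η * M * h + (B + η) * δ) := by
    intro i hi
    have hi' := Finset.mem_range.1 hi
    have p1 := hpt i hi'.le
    have p2 := hpt (i + 1) hi'
    have hle : a + i * h ≤ a + (i + 1 : ℕ) * h := by linarith [hstep i]
    have hin : ∀ α ∈ Icc (a + i * h) (a + (i + 1 : ℕ) * h), α ∈ Icc a b := fun α hα =>
      ⟨p1.1.trans hα.1, hα.2.trans p2.2⟩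
    have c1 : ∫ α in (a + i * h)..(a + (i + 1 : ℕ) * h), K α * f α ≤
        (K (a + (i + 1 : ℕ) * h) + η) * ∫ α in (a + i * h)..(a + (i + 1 : ℕ) * h), f α := by
      rw [← intervalIntegral.integral_const_mul]
      apply intervalIntegral.integral_mono_on hle (hsubi i hi' _ hKf) ((hsubi i hi' _ hfi).const_mul _)
      intro α hα
      apply mul_le_mul_of_nonneg_right _ (hf0 α (hin α hα))
      have := (abs_le.1 (hu1 α (hin α hα) _ p2 (by
        rw [abs_le]
        constructor <;> linarith [hα.1, hα.2, hstep i]))).2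
      linarith
    have hKi := hK0 (a + (i + 1 : ℕ) * h)
    have hKB := hB _ p2
    have hφi := hφ0 _ p2
    have hφM := hM _ p2
    have c2 := mul_le_mul_of_nonneg_left (hcell i hi') (by linarith : 0 ≤ K (a + (i + 1 : ℕ) * h) + η)
    have c3 : K (a + (i + 1 : ℕ) * h) * φ (a + (i + 1 : ℕ) * h) * h ≤
        (∫ α in (a + i * h)..(a + (i + 1 : ℕ) * h), K α * φ α) + η * h := by
      have d1 : ∫ _ in (a + i * h)..(a + (i + 1 : ℕ) * h), K (a + (i + 1 : ℕ) * h) * φ (a + (i + 1 : ℕ) * h) ≤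
          ∫ α in (a + i * h)..(a + (i + 1 : ℕ) * h), (K α * φ α + η) := by
        apply intervalIntegral.integral_mono_on hle (by simp) ((hKφ _ _).add (by simp))
        intro α hα
        have := (abs_le.1 (hu2 α (hin α hα) _ p2 (by
          rw [abs_le]
          constructor <;> linarith [hα.1, hα.2, hstep i]))).1
        linarith
      rw [intervalIntegral.integral_const, smul_eq_mul, intervalIntegral.integral_add (hKφ _ _) (by simp),
        intervalIntegral.integral_const, smul_eq_mul, hstep i] at d1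
      linarith
    have c4 : (K (a + (i + 1 : ℕ) * h) + η) * (φ (a + (i + 1 : ℕ) * h) * h + δ) =
        K (a + (i + 1 : ℕ) * h) * φ (a + (i + 1 : ℕ) * h) * h + η * (φ (a + (i + 1 : ℕ) * h) * h) +
          (K (a + (i + 1 : ℕ) * h) + η) * δ := by ring
    have c5 : η * (φ (a + (i + 1 : ℕ) * h) * h) ≤ η * (M * h) :=
      mul_le_mul_of_nonneg_left (mul_le_mul_of_nonneg_right hφM hh0.le) hη0.le
    have c6 : (K (a + (i + 1 : ℕ) * h) + η) * δ ≤ (B + η) * δ :=
      mul_le_mul_of_nonneg_right (by linarith) hδ0.le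
    calc _ ≤ _ := c1
      _ ≤ _ := c2
      _ = _ := c4
      _ ≤ _ := by linarith
  have hsum := Finset.sum_le_sum main
  have e1 := intervalIntegral.sum_integral_adjacent_intervals (f := fun α => K α * f α)
    (μ := volume) (a := fun i : ℕ => a + i * h) (n := m) (fun k hk => hsubi k hk _ hKf)
  have e2 := intervalIntegral.sum_integral_adjacent_intervals (f := fun α => K α * φ α)
    (μ := volume) (a := fun i : ℕ => a + i * h) (n := m) (fun k hk => hKφ _ _)
  have e3 : a + ((0 : ℕ) : ℝ) * h = a := by simp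
  have e4 : a + (m : ℝ) * h = b := by rw [hmh]; ring
  rw [Finset.sum_add_distrib] at hsum
  simp only [e3, e4] at e1 e2
  rw [e1, e2] at hsum
  simp only [Finset.sum_const, Finset.card_range, nsmul_eq_mul] at hsum
  have f1 : (m : ℝ) * (η * h + η * M * h + (B + η) * δ) = η * (M + 1) * (b - a) + m * ((B + η) * δ) := by
    rw [← hmh]; ring
  have f2 : η * (M + 1) * (b - a) = ε / 4 := by
    rw [hη]; field_simp
  have f3 : (m : ℝ) * ((B + η) * δ) ≤ ε / 4 := by
    have : (m : ℝ) * ((B + η + 1) * δ) = ε / 4 := by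
      rw [hδ]
      have : 0 < B + η + 1 := by positivity
      field_simp
    have h2 : (m : ℝ) * ((B + η) * δ) ≤ m * ((B + η + 1) * δ) := by
      apply mul_le_mul_of_nonneg_left _ hm0.le
      apply mul_le_mul_of_nonneg_right _ hδ0.le
      linarith
    linarith
  linarith

end Pool.Agent.L5helper66.PVP
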