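import Pool.Agent.L5helper12.PV.Wt
import Pool.Agent.L5helper66.PVStep

/-! The prime side of the averaged upper bound for the mean square in multiplicatively short intervals. -/

set_option autoImplicit false

open Filter Topology Set MeasureTheory H370
open scoped ENNReal

namespace Pool.Agent.L5helper66.PVP

open Pool.Agent.L5helper10.TV Pool.Agent.L5helper12.PV

lemma low_wt (K : ℝ → ℝ) (hK : Continuous K) (hK0 : ∀ α, 0 ≤ K α) (ε : ℝ) (hε : 0 < ε) :
    ∀ᶠ κ in 𝓝[>] (0 : ℝ), ∫ v in (0 : ℝ)..(La κ), fk κ v ^ 2 * K (v / La κ) ≤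
      ((∫ α in (0 : ℝ)..1, K α * α) + ε) * (κ * La κ ^ 2) := by
  obtain ⟨m, δ, hm, hδ, hst⟩ := step_bd K (fun α => α) 0 1 one_pos hK hK0 continuous_id (fun α h => h.1) ε hε
  have hm0 : (0 : ℝ) < m := by exact_mod_cast hm
  have hall : ∀ᶠ κ in 𝓝[>] (0 : ℝ), ∀ i ∈ Finset.range m,
      ∫ v in Ioc ((i / m : ℝ) * La κ) (((i + 1 : ℕ) / m : ℝ) * La κ), fk κ v ^ 2 ≤
      (((i + 1 : ℕ) / m : ℝ) * (((i + 1 : ℕ) / m : ℝ) - (i / m : ℝ)) + δ) * (κ * La κ ^ 2) := by
    rw [Filter.eventually_all_finset]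
    intro i hi
    have hi' := Finset.mem_range.1 hi
    apply loc_ev _ _ δ (by positivity) _ _ hδ
    · apply div_le_div_of_nonneg_right _ hm0.le
      push_cast; linarith
    · rw [div_le_one hm0]; exact_mod_cast hi'
  filter_upwards [hall, le_one_ev2, La_ge 1, self_mem_nhdsWithin] with κ h1 hκ1 hL h3
  have hκ : 0 < κ := h3
  obtain ⟨Λ, hΛ⟩ : ∃ Λ, Λ = La κ := ⟨_, rfl⟩
  rw [← hΛ] at h1 hL ⊢
  have hΛ0 : 0 < Λ := by linarith
  have hD : 0 < κ * Λ ^ 2 := by positivity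
  have hcv : ∀ (x y : ℝ) (g : ℝ → ℝ), ∫ v in (x * Λ)..(y * Λ), fk κ v ^ 2 * g (v / Λ) =
      (κ * Λ ^ 2) * ∫ α in x..y, g α * (fk κ (α * Λ) ^ 2 * (Λ / (κ * Λ ^ 2))) := by
    intro x y g
    have e1 := intervalIntegral.integral_comp_mul_right (a := x) (b := y)
      (fun v => fk κ v ^ 2 * g (v / Λ)) hΛ0.ne'
    have e2 : ∫ α in x..y, g α * (fk κ (α * Λ) ^ 2 * (Λ / (κ * Λ ^ 2))) =
        (Λ / (κ * Λ ^ 2)) * ∫ α in x..y, fk κ (α * Λ) ^ 2 * g (α * Λ / Λ) := by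
      rw [← intervalIntegral.integral_const_mul]
      congr 1
      funext α
      rw [mul_div_cancel_right₀ _ hΛ0.ne']
      ring
    rw [e2, e1, smul_eq_mul]
    field_simp
  have hfi : IntervalIntegrable (fun α => fk κ (α * Λ) ^ 2 * (Λ / (κ * Λ ^ 2))) volume 0 1 := by
    have k1 : IntervalIntegrable (fun v => fk κ v ^ 2) volume (0 * Λ) (1 * Λ) :=
      fk2_ii κ _ _ hκ hκ1 (by linarith)
    have k2 := (k1.comp_mul_right (c := Λ))
    rw [mul_div_cancel_right₀ _ hΛ0.ne', mul_div_cancel_right₀ _ hΛ0.ne'] at k2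
    exact k2.mul_const _
  have hfin := hst (fun α => fk κ (α * Λ) ^ 2 * (Λ / (κ * Λ ^ 2))) (fun α _ => by positivity) hfi (by
    intro i hi
    have h4 := h1 i (Finset.mem_range.2 hi)
    have e1 : (0 : ℝ) + i * ((1 - 0) / m) = i / m := by ring
    have e2 : (0 : ℝ) + (i + 1 : ℕ) * ((1 - 0) / m) = (i + 1 : ℕ) / m := by ring
    have e3 : ((i + 1 : ℕ) / m : ℝ) - (i / m : ℝ) = (1 - 0) / m := by push_cast; ring
    rw [e1, e2]
    rw [e3] at h4
    have h5 := hcv (i / m) ((i + 1 : ℕ) / m) (fun _ => 1)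
    simp only [mul_one, one_mul] at h5
    rw [← intervalIntegral.integral_of_le (by
      apply mul_le_mul_of_nonneg_right _ hΛ0.le
      apply div_le_div_of_nonneg_right _ hm0.le
      push_cast; linarith), h5, mul_comm] at h4
    exact le_of_mul_le_mul_right h4 hD)
  have h6 := hcv 0 1 K
  rw [zero_mul, one_mul] at h6
  rw [h6, mul_comm]
  exact mul_le_mul_of_nonneg_right hfin hD.le

lemma log_rel (X Q : ℝ) (hX : 0 < X) (hXQ : X < Q) (T κ : ℝ) (hT : 0 < T) (hκ : κ ∈ Ioo (X / T) (Q / T)) :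
    |La κ - Real.log T| ≤ |Real.log X| + |Real.log Q| := by
  have hκ0 : 0 < κ := lt_trans (by positivity) hκ.1
  have hQ : 0 < Q := hX.trans hXQ
  have h1 : Real.log X - Real.log T ≤ Real.log κ := by
    rw [← Real.log_div hX.ne' hT.ne']
    exact Real.log_le_log (by positivity) hκ.1.le
  have h2 : Real.log κ ≤ Real.log Q - Real.log T := by
    rw [← Real.log_div hQ.ne' hT.ne']
    exact Real.log_le_log hκ0 hκ.2.le
  unfold La
  have a1 := neg_abs_le (Real.log X)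
  have a2 := le_abs_self (Real.log Q)
  have a3 := abs_nonneg (Real.log X)
  have a4 := abs_nonneg (Real.log Q)
  rw [abs_le]
  constructor <;> linarith

lemma log_ge_ev (A : ℝ) : ∀ᶠ T in atTop, A ≤ Real.log T := Real.tendsto_log_atTop.eventually_ge_atTop A

lemma small_ev (F : ℝ → ℝ) (hF : Continuous F) (ε : ℝ) (hε : 0 < ε) : ∃ η : ℝ, 0 < η ∧ η < 1 ∧ F η ≤ F 0 + ε := by
  have h1 : ∀ᶠ η in 𝓝[>] (0 : ℝ), F η ≤ F 0 + ε := by
    have : Tendsto F (𝓝[>] 0) (𝓝 (F 0)) := (hF.tendsto 0).mono_left nhdsWithin_le_nhds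
    exact this.eventually_le_const (by linarith)
  have h2 : ∀ᶠ η in 𝓝[>] (0 : ℝ), η < 1 := by
    apply eventually_nhdsWithin_of_eventually_nhds
    exact eventually_lt_nhds (by norm_num)
  obtain ⟨η, h3, h4, h5⟩ := (h1.and (h2.and self_mem_nhdsWithin)).exists
  exact ⟨η, h5, h4, h3⟩

theorem low_T (K : ℝ → ℝ) (hK : Continuous K) (hK0 : ∀ α, 0 ≤ K α) (ℓ : ℝ)
    (hKs : ∀ α, ℓ ≤ α → K α = 0) (B : ℝ) (hKB : ∀ α, K α ≤ B) (X Q ε : ℝ) (hX : 0 < X) (hXQ : X < Q) (hε : 0 < ε) :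
    ∀ᶠ T in atTop, ∀ κ ∈ Ioo (X / T) (Q / T), ∫ v in Iic (La κ), fk κ v ^ 2 * K (v / Real.log T) ≤
      ((∫ α in (0 : ℝ)..1, K α * α) + ε) * (κ * Real.log T ^ 2) := by
  have hB : 0 ≤ B := (hK0 0).trans (hKB 0)
  set I1 : ℝ := ∫ α in (0 : ℝ)..1, K α * α with hI1
  have hI10 : 0 ≤ I1 := by
    rw [hI1]
    exact intervalIntegral.integral_nonneg zero_le_one fun α hα => mul_nonneg (hK0 α) hα.1
  obtain ⟨η, hη0, hη1, hη⟩ := small_ev (fun η => (I1 + 2 * η) * (1 + η) ^ 2 + η) (by fun_prop) ε hε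
  simp only [mul_zero, add_zero, one_pow, mul_one] at hη
  obtain ⟨δ, hδ, hu⟩ := unif_on K hK 0 2 η hη0
  set C : ℝ := |Real.log X| + |Real.log Q| with hC
  have hC0 : 0 ≤ C := by rw [hC]; positivity
  have hlow := low_wt (fun α => K α + η) (by fun_prop) (fun α => by linarith [hK0 α]) η hη0
  filter_upwards [eventually_gt_atTop 1, lift_ev hlow X Q hX, lift_ev le_one_ev2 X Q hX,
    log_ge_ev (C / δ), log_ge_ev (C / η), log_ge_ev (C + 1), log_ge_ev (500 * B / η)] with T hT hl hκ1' g1 g2 g3 g4 κ hκ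
  have hT0 : 0 < T := by linarith
  have hκ0 : 0 < κ := lt_trans (by positivity) hκ.1
  have hκ1 := hκ1' κ hκ
  have hr := log_rel X Q hX hXQ T κ hT0 hκ
  rw [← hC] at hr
  obtain ⟨L, hL⟩ : ∃ L, L = Real.log T := ⟨_, rfl⟩
  obtain ⟨Λ, hΛ⟩ : ∃ Λ, Λ = La κ := ⟨_, rfl⟩
  have hl' := hl κ hκ
  rw [← hL] at g1 g2 g3 g4 hr ⊢
  rw [← hΛ] at hr hl' ⊢
  have hr1 := (abs_le.1 hr).1
  have hr2 := (abs_le.1 hr).2
  have hL0 : 0 < L := by linarith
  have hL1 : 1 ≤ L := by linarith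
  have hΛ1 : 1 ≤ Λ := by linarith
  have hΛ0 : 0 < Λ := by linarith
  have hint : Integrable (fun v => fk κ v ^ 2 * K (v / L)) := by
    apply fkG_int κ hκ0.le hκ1 _ (by fun_prop) (fun v => hK0 _) B (ℓ * L)
    · intro v; exact hKB _
    · intro v hv
      exact hKs _ (by rw [le_div_iff₀ hL0]; exact hv.le)
  have hsplit := intervalIntegral.integral_Iic_sub_Iic (a := (0 : ℝ)) (b := Λ) hint.integrableOn hint.integrableOn
  have hneg : ∫ v in Iic 0, fk κ v ^ 2 * K (v / L) ≤ η * (κ * L ^ 2) := by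
    have hfi : IntegrableOn (fun v => fk κ v ^ 2) (Iic 0) := by
      have := fk_wt_int κ 1 0 0 0 hκ0 hκ1 zero_le_one le_rfl le_rfl
      simpa using this
    have h4 : ∫ v in Iic 0, fk κ v ^ 2 * K (v / L) ≤ ∫ v in Iic 0, B * fk κ v ^ 2 := by
      apply setIntegral_mono_on hint.integrableOn (hfi.const_mul _) measurableSet_Iic
      intro v _
      rw [mul_comm]
      exact mul_le_mul_of_nonneg_right (hKB _) (sq_nonneg _)
    rw [integral_const_mul] at h4
    have h5 := crude κ 0 hκ0 hκ1 le_rfl (by rw [← hΛ]; exact hΛ0.le)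
    have h6 : 500 * B ≤ η * L ^ 2 := by
      rw [div_le_iff₀ hη0] at g4
      nlinarith
    calc _ ≤ B * ∫ v in Iic 0, fk κ v ^ 2 := h4
      _ ≤ B * (500 * κ * (1 + 0) ^ 2) := mul_le_mul_of_nonneg_left h5 hB
      _ = (500 * B) * κ := by ring
      _ ≤ (η * L ^ 2) * κ := mul_le_mul_of_nonneg_right h6 hκ0.le
      _ = _ := by ring
  have hmain : ∫ v in (0 : ℝ)..Λ, fk κ v ^ 2 * K (v / L) ≤ ∫ v in (0 : ℝ)..Λ, fk κ v ^ 2 * (K (v / Λ) + η) := by
    apply intervalIntegral.integral_mono_on hΛ0.le hint.intervalIntegrable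
    · exact (fk2_ii κ _ _ hκ0 hκ1 hΛ0.le).mul_continuousOn (by fun_prop)
    · intro v hv
      apply mul_le_mul_of_nonneg_left _ (sq_nonneg _)
      have hCδ : C / L ≤ δ := by
        rw [div_le_iff₀ hδ] at g1
        rw [div_le_iff₀ hL0]; linarith
      have hd : |v / L - v / Λ| ≤ C / L := by
        have e1 : v / L - v / Λ = (v / Λ) * ((Λ - L) / L) := by field_simp
        have e2 : 0 ≤ v / Λ := div_nonneg hv.1 hΛ0.le
        have e3 : v / Λ ≤ 1 := (div_le_one hΛ0).2 hv.2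
        rw [e1, abs_mul, abs_of_nonneg e2, abs_div, abs_of_pos hL0]
        calc v / Λ * (|Λ - L| / L) ≤ 1 * (C / L) := by gcongr
          _ = _ := one_mul _
      have hC1 : C / L ≤ 1 := by rw [div_le_one hL0]; linarith
      have h7 : v / Λ ∈ Icc (0 : ℝ) 2 := ⟨div_nonneg hv.1 hΛ0.le, by linarith [(div_le_one hΛ0).2 hv.2]⟩
      have h8 : v / L ∈ Icc (0 : ℝ) 2 :=
        ⟨div_nonneg hv.1 hL0.le, by linarith [(div_le_one hΛ0).2 hv.2, (abs_le.1 hd).2]⟩
      have := (abs_le.1 (hu _ h8 _ h7 (hd.trans hCδ))).2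
      linarith
  have hI : ∫ α in (0 : ℝ)..1, (K α + η) * α ≤ I1 + η := by
    have e1 : ∫ α in (0 : ℝ)..1, (K α + η) * α = I1 + ∫ α in (0 : ℝ)..1, η * α := by
      rw [hI1, ← intervalIntegral.integral_add ((by fun_prop : Continuous fun α => K α * α).intervalIntegrable _ _)
        ((by fun_prop : Continuous fun α : ℝ => η * α).intervalIntegrable _ _)]
      congr 1
      funext α; ring
    rw [e1, intervalIntegral.integral_const_mul, integral_id]
    linarith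
  have hΛL : Λ ≤ (1 + η) * L := by
    have : C ≤ η * L := by
      rw [div_le_iff₀ hη0] at g2; linarith
    linarith
  have hΛ2 : Λ ^ 2 ≤ (1 + η) ^ 2 * L ^ 2 := by
    rw [← mul_pow]
    exact pow_le_pow_left₀ hΛ0.le hΛL 2
  have h9 : ∫ v in (0 : ℝ)..Λ, fk κ v ^ 2 * (K (v / Λ) + η) ≤ (I1 + 2 * η) * (1 + η) ^ 2 * (κ * L ^ 2) := by
    calc _ ≤ _ := hl'
      _ ≤ (I1 + 2 * η) * (κ * ((1 + η) ^ 2 * L ^ 2)) := by
        apply mul_le_mul (by linarith) (mul_le_mul_of_nonneg_left hΛ2 hκ0.le) (by positivity) (by positivity)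
      _ = _ := by ring
  have h10 : 0 ≤ κ * L ^ 2 := by positivity
  have h11 := mul_le_mul_of_nonneg_right hη h10
  have h12 : (((I1 + 2 * η) * (1 + η) ^ 2 + η) * (κ * L ^ 2)) =
    (I1 + 2 * η) * (1 + η) ^ 2 * (κ * L ^ 2) + η * (κ * L ^ 2) := by ring
  rw [h12] at h11
  linarith

lemma rt_int (T : ℝ) (hT : 1 < T) (w : ℝ → ℝ) (hwm : Measurable w) (hw0 : ∀ α, 0 ≤ w α) (B : ℝ)
    (hwB : ∀ α, w α ≤ B) (b : ℝ) : IntegrableOn (fun α => w α * RT T α) (Ioc 1 b) := by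
  refine Integrable.mono' (g := fun _ => B * (81 * (T ^ b) ^ 2 / Real.log T)) (integrableOn_const (by simp)) ?_ ?_
  · exact (hwm.aestronglyMeasurable).mul (RT_meas T hT 1 b zero_le_one)
  · refine ae_restrict_of_forall_mem measurableSet_Ioc fun α hα => ?_
    have hR := RT_nonneg T α hT (by linarith [hα.1])
    rw [Real.norm_of_nonneg (mul_nonneg (hw0 α) hR)]
    exact mul_le_mul (hwB α) (RT_bd T α b hT hα.1.le hα.2) hR ((hw0 α).trans (hwB α))

lemma rt_lint (T : ℝ) (hT : 1 < T) (w : ℝ → ℝ) (hwm : Measurable w) (hw0 : ∀ α, 0 ≤ w α) (B : ℝ)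
    (hwB : ∀ α, w α ≤ B) (b : ℝ) (hb : 1 ≤ b) (hwb : ∀ α, b < α → w α = 0) :
    ∫⁻ α in Ioi (1 : ℝ), ENNReal.ofReal (w α * RT T α) = ENNReal.ofReal (∫ α in (1 : ℝ)..b, w α * RT T α) := by
  rw [intervalIntegral.integral_of_le hb, ofReal_integral_eq_lintegral_ofReal (rt_int T hT w hwm hw0 B hwB b)
      (ae_restrict_of_forall_mem measurableSet_Ioc fun α hα =>
        mul_nonneg (hw0 α) (RT_nonneg T α hT (by linarith [hα.1])))]
  rw [← lintegral_indicator measurableSet_Ioi, ← lintegral_indicator measurableSet_Ioc]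
  congr 1
  funext α
  simp only [Set.indicator_apply, Set.mem_Ioi, Set.mem_Ioc]
  by_cases ha : 1 < α
  · by_cases hb : α ≤ b
    · rw [if_pos ha, if_pos ⟨ha, hb⟩]
    · rw [if_pos ha, if_neg (fun h => hb h.2), hwb α (not_le.1 hb)]
      simp
  · rw [if_neg ha, if_neg (fun h => ha h.1)]

lemma rt_ev (h : ∀ a b ε : ℝ, 1 ≤ a → a < b → 0 < ε → ∀ᶠ T in atTop, ∫ α in a..b, RT T α ≤ b - a + ε)
    (w : ℝ → ℝ) (hw : Continuous w) (hw0 : ∀ α, 0 ≤ w α) (b : ℝ) (hb : 1 < b) (ε : ℝ) (hε : 0 < ε) :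
    ∀ᶠ T in atTop, ∫ α in (1 : ℝ)..b, w α * RT T α ≤ (∫ α in (1 : ℝ)..b, w α) + ε := by
  obtain ⟨m, δ, hm, hδ, hst⟩ := step_bd w (fun _ => 1) 1 b hb hw hw0 continuous_const (fun _ _ => zero_le_one) ε hε
  have hm0 : (0 : ℝ) < m := by exact_mod_cast hm
  have hs : 0 < (b - 1) / m := div_pos (by linarith) hm0
  have hall : ∀ᶠ T in atTop, ∀ i ∈ Finset.range m,
      ∫ α in ((1 : ℝ) + i * ((b - 1) / m))..(1 + (i + 1 : ℕ) * ((b - 1) / m)), RT T α ≤
        (1 + (i + 1 : ℕ) * ((b - 1) / m)) - (1 + i * ((b - 1) / m)) + δ := by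
    rw [Filter.eventually_all_finset]
    intro i hi
    apply h _ _ δ _ _ hδ
    · have : 0 ≤ (i : ℝ) * ((b - 1) / m) := by positivity
      linarith
    · push_cast
      linarith
  filter_upwards [hall, eventually_gt_atTop 1] with T hT hT1
  have hfin := hst (RT T) (fun α hα => RT_nonneg T α hT1 (by linarith [hα.1])) (by
      rw [intervalIntegrable_iff_integrableOn_Ioc_of_le hb.le]
      have := rt_int T hT1 (fun _ => 1) measurable_const (fun _ => zero_le_one) 1 (fun _ => le_rfl) b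
      simpa using this) (by
      intro i hi
      have := hT i (Finset.mem_range.2 hi)
      refine this.trans (le_of_eq ?_)
      push_cast
      ring)
  simpa using hfin

theorem high_T (h : ∀ a b ε : ℝ, 1 ≤ a → a < b → 0 < ε → ∀ᶠ T in atTop, ∫ α in a..b, RT T α ≤ b - a + ε)
    (K : ℝ → ℝ) (hK : Continuous K) (hK0 : ∀ α, 0 ≤ K α) (ℓ : ℝ) (hℓ : 1 ≤ ℓ)
    (hKs : ∀ α, ℓ ≤ α → K α = 0) (B : ℝ) (hKB : ∀ α, K α ≤ B) (X Q ε : ℝ) (hX : 0 < X) (hXQ : X < Q) (hε : 0 < ε) :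
    ∀ᶠ T in atTop, ∫⁻ κ in Ioo (X / T) (Q / T), ENNReal.ofReal (κ⁻¹ ^ 3) *
      ∫⁻ v in Ioi (La κ), ENNReal.ofReal (fk κ v ^ 2 * K (v / Real.log T)) ≤
      ENNReal.ofReal (T * Real.log T ^ 2 * ((1 / X) * ((∫ α in (1 : ℝ)..ℓ, K α) + ε))) := by
  have hB : 0 ≤ B := (hK0 0).trans (hKB 0)
  have hQ : 0 < Q := hX.trans hXQ
  set I2 : ℝ := ∫ α in (1 : ℝ)..ℓ, K α with hI2
  have hI20 : 0 ≤ I2 := by
    rw [hI2]
    exact intervalIntegral.integral_nonneg hℓ fun α _ => hK0 α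
  obtain ⟨η, hη0, hη1, hη⟩ := small_ev (fun η => (1 + η) ^ 6 * (I2 + (ℓ + 2) * η)) (by fun_prop) ε hε
  simp only [mul_zero, add_zero, one_pow, one_mul] at hη
  obtain ⟨δ, hδ, hu⟩ := unif_on K hK 0 (ℓ + 1) η hη0
  set w : ℝ → ℝ := fun α => K α + η * max 0 (min 1 (ℓ + 2 - α)) with hw
  have hwc : Continuous w := by rw [hw]; fun_prop
  have hcut0 : ∀ α : ℝ, 0 ≤ max 0 (min 1 (ℓ + 2 - α)) := fun α => le_max_left _ _
  have hcut1 : ∀ α : ℝ, max 0 (min 1 (ℓ + 2 - α)) ≤ 1 := fun α => max_le zero_le_one (min_le_left _ _)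
  have hw0 : ∀ α, 0 ≤ w α := fun α => by
    have := mul_nonneg hη0.le (hcut0 α)
    have := hK0 α
    simp only [hw]; linarith
  have hwB : ∀ α, w α ≤ B + η := fun α => by
    have := mul_le_mul_of_nonneg_left (hcut1 α) hη0.le
    have := hKB α
    simp only [hw]; linarith
  have hwz : ∀ α, ℓ + 2 < α → w α = 0 := fun α hα => by
    simp only [hw]
    rw [hKs α (by linarith), max_eq_left]
    · simp
    · exact (min_le_right _ _).trans (by linarith)
  have hwK : ∀ α, K α ≤ w α := fun α => by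
    have := mul_nonneg hη0.le (hcut0 α)
    simp only [hw]; linarith
  have hw1 : ∀ α, α ≤ ℓ + 1 → w α = K α + η := fun α hα => by
    simp only [hw]
    rw [min_eq_left (by linarith), max_eq_right zero_le_one, mul_one]
  have hwI : ∫ α in (1 : ℝ)..(ℓ + 2), w α ≤ I2 + η * (ℓ + 1) := by
    have e1 : ∫ α in (1 : ℝ)..(ℓ + 2), w α ≤ ∫ α in (1 : ℝ)..(ℓ + 2), (K α + η) := by
      apply intervalIntegral.integral_mono_on (by linarith) (hwc.intervalIntegrable _ _)
        ((by fun_prop : Continuous fun α => K α + η).intervalIntegrable _ _)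
      intro α _
      have := mul_le_mul_of_nonneg_left (hcut1 α) hη0.le
      simp only [hw]; linarith
    have e2 : ∫ α in (1 : ℝ)..(ℓ + 2), (K α + η) = (∫ α in (1 : ℝ)..(ℓ + 2), K α) + η * (ℓ + 1) := by
      rw [intervalIntegral.integral_add (hK.intervalIntegrable _ _) (by simp), intervalIntegral.integral_const,
        smul_eq_mul]
      ring
    have e3 : ∫ α in (1 : ℝ)..(ℓ + 2), K α = I2 := by
      rw [hI2, ← intervalIntegral.integral_add_adjacent_intervals (hK.intervalIntegrable 1 ℓ)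
        (hK.intervalIntegrable ℓ (ℓ + 2))]
      have e4 : ∫ α in ℓ..(ℓ + 2), K α = ∫ α in ℓ..(ℓ + 2), (0 : ℝ) := by
        apply intervalIntegral.integral_congr
        intro α hα
        rw [uIcc_of_le (by linarith)] at hα
        exact hKs α hα.1
      rw [e4]; simp
    linarith
  have hrt := rt_ev h w hwc hw0 (ℓ + 2) (by linarith) η hη0
  have hq : (0 : ℝ) < (1 + η) / X := by positivity
  have htend : Tendsto (fun T : ℝ => (1 + η) / X * T) atTop atTop := tendsto_id.const_mul_atTop hq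
  set q' : ℝ := (1 + η) / X with hq'
  set Q' : ℝ := q' * Q with hQ'
  have hQ'0 : 0 < Q' := by positivity
  set C : ℝ := |Real.log (2 * Q')| + (ℓ + 1) * |Real.log q'| with hC
  have hC0 : 0 ≤ C := by rw [hC]; positivity
  have hqQ : 1 + η ≤ Q' := by
    rw [hQ', hq', div_mul_eq_mul_div, le_div_iff₀ hX]
    exact mul_le_mul_of_nonneg_left hXQ.le (by linarith)
  filter_upwards [eventually_gt_atTop 1, htend.eventually hrt, htend.eventually (eventually_gt_atTop 1),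
    htend.eventually (eventually_ge_atTop (2 * Q')),
    lift_ev (cosh_le_ev (1 + η) (by linarith)) X Q hX, lift_ev (sinh_le_ev (1 + η) (by linarith)) X Q hX,
    htend.eventually (log_ge_ev (C / δ)), htend.eventually (log_ge_ev (C + 1)), log_ge_ev (|Real.log q'| / η),
    htend.eventually (log_ge_ev (|Real.log Q'| + 1))]
    with T hT hR hT' hTQ hch hsh g1 g2 g3 g4
  have hT0 : 0 < T := by linarith
  obtain ⟨T', hT'e⟩ : ∃ T', T' = q' * T := ⟨_, rfl⟩
  rw [← hT'e] at hR hT' hTQ g1 g2 g4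
  have hT'0 : 0 < T' := by linarith
  have r1 : (1 + η) / T' = X / T := by
    rw [hT'e, hq']; field_simp
  have r2 : Q' / T' = Q / T := by
    rw [hT'e, hQ']; field_simp
  have hQT : Q' / T' ≤ 1 / 2 := by rw [div_le_iff₀ hT'0]; linarith
  obtain ⟨L, hL⟩ : ∃ L, L = Real.log T := ⟨_, rfl⟩
  obtain ⟨L', hL'⟩ : ∃ L', L' = Real.log T' := ⟨_, rfl⟩
  have hL0 : 0 < L := by rw [hL]; exact Real.log_pos hT
  have hL'0 : 0 < L' := by rw [hL']; exact Real.log_pos hT'
  have hLL : L' = Real.log q' + L := by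
    rw [hL', hL, hT'e, Real.log_mul hq.ne' hT0.ne']
  rw [← hL'] at g1 g2 g4
  rw [← hL] at g3 ⊢
  have hcv := cv T' (1 + η) Q' (fun v => w (v / L')) hT'.le (by linarith) hQT (by
    rw [r1, r2]; exact hch) (by fun_prop)
  rw [rhs_alpha T' hT'] at hcv
  simp only [r1, r2] at hcv
  have hGa : ∀ α : ℝ, w (α * Real.log T' / L') = w α := by
    intro α
    rw [← hL', mul_div_cancel_right₀ _ hL'0.ne']
  simp only [hGa] at hcv
  rw [rt_lint T' hT' w hwc.measurable hw0 (B + η) hwB (ℓ + 2) (by linarith) hwz, ← hL'] at hcv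
  -- pointwise comparison
  have hpt : ∀ κ ∈ Ioo (X / T) (Q / T), ENNReal.ofReal (κ⁻¹ ^ 3) *
      ∫⁻ v in Ioi (La κ), ENNReal.ofReal (fk κ v ^ 2 * K (v / L)) ≤
      ENNReal.ofReal ((1 + η) ^ 3) * (ENNReal.ofReal ((2 * Real.sinh (κ / 2))⁻¹ ^ 3) *
        ∫⁻ v in Ioi (La κ), ENNReal.ofReal (fk κ v ^ 2 * w ((v + ss T' κ) / L'))) := by
    intro κ hκ
    have hκ' : κ ∈ Ioo ((1 + η) / T') (Q' / T') := by rw [r1, r2]; exact hκ
    obtain ⟨k1, k2, k3, k4, k5, k6, k7⟩ := geo T' (1 + η) Q' κ hT'.le (by linarith) hQT hκ'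
    have hs : 0 < Real.sinh (κ / 2) := Real.sinh_pos_iff.2 (by linarith)
    rw [← mul_assoc, ← ENNReal.ofReal_mul (by positivity)]
    apply mul_le_mul'
    · apply ENNReal.ofReal_le_ofReal
      have := hsh κ hκ
      have h3 : κ⁻¹ ≤ (1 + η) * (2 * Real.sinh (κ / 2))⁻¹ := by
        rw [← div_eq_mul_inv, le_div_iff₀ (by positivity), inv_mul_le_iff₀ k1]
        linarith
      rw [← mul_pow]
      exact pow_le_pow_left₀ (by positivity) h3 3
    · apply setLIntegral_mono' measurableSet_Ioi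
      intro v hv
      have hv1 : La κ < v := hv
      apply ENNReal.ofReal_le_ofReal
      apply mul_le_mul_of_nonneg_left _ (sq_nonneg _)
      by_cases hvl : ℓ ≤ v / L
      · rw [hKs _ hvl]; exact hw0 _
      push Not at hvl
      have b1 := le_abs_self (Real.log Q')
      have hv0 : 0 < v := by
        rw [← hL'] at k4
        linarith
      have hx0 : 0 ≤ v / L := by positivity
      have hd : |v / L - (v + ss T' κ) / L'| ≤ C / L' := by
        have e1 : v / L - (v + ss T' κ) / L' = (v / L) * (Real.log q' / L') - ss T' κ / L' := by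
          have : v / L - (v + ss T' κ) / L' = (v / L) * ((L' - L) / L') - ss T' κ / L' := by
            field_simp
            ring
          rw [this, hLL]
          ring_nf
        rw [e1]
        have e2 : |(v / L) * (Real.log q' / L') - ss T' κ / L'| ≤ |(v / L) * (Real.log q' / L')| + |ss T' κ / L'| :=
          abs_sub _ _
        have e3 : |(v / L) * (Real.log q' / L')| ≤ (ℓ + 1) * |Real.log q'| / L' := by
          rw [abs_mul, abs_of_nonneg hx0, abs_div, abs_of_pos hL'0, mul_div_assoc]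
          exact mul_le_mul_of_nonneg_right (by linarith) (by positivity)
        have e4 : |ss T' κ / L'| ≤ |Real.log (2 * Q')| / L' := by
          rw [abs_div, abs_of_pos hL'0, abs_of_nonneg k5]
          exact div_le_div_of_nonneg_right (k6.trans (le_abs_self _)) hL'0.le
        have e5 : C / L' = |Real.log (2 * Q')| / L' + (ℓ + 1) * |Real.log q'| / L' := by
          rw [hC]; ring
        linarith
      have hC1 : C / L' ≤ 1 := by rw [div_le_one hL'0]; linarith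
      have hCδ : C / L' ≤ δ := by
        rw [div_le_iff₀ hδ] at g1
        rw [div_le_iff₀ hL'0]; linarith
      have hd1 := abs_le.1 hd
      have hx' : (v + ss T' κ) / L' ≤ ℓ + 1 := by linarith [hd1.1]
      have hx'0 : 0 ≤ (v + ss T' κ) / L' := by positivity
      rw [hw1 _ hx']
      have := (abs_le.1 (hu (v / L) ⟨hx0, by linarith⟩ _ ⟨hx'0, hx'⟩ (hd.trans hCδ))).2
      linarith
  have h5 : ∫⁻ κ in Ioo (X / T) (Q / T), ENNReal.ofReal (κ⁻¹ ^ 3) *
      ∫⁻ v in Ioi (La κ), ENNReal.ofReal (fk κ v ^ 2 * K (v / L)) ≤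
      ENNReal.ofReal ((1 + η) ^ 3) * (ENNReal.ofReal (T' * L' ^ 2) *
        ENNReal.ofReal (∫ α in (1 : ℝ)..(ℓ + 2), w α * RT T' α)) := by
    refine (setLIntegral_mono' measurableSet_Ioo hpt).trans ?_
    rw [lintegral_const_mul' _ _ ENNReal.ofReal_ne_top]
    exact mul_le_mul_right hcv _
  refine h5.trans ?_
  rw [← ENNReal.ofReal_mul (by positivity), ← ENNReal.ofReal_mul (by positivity)]
  apply ENNReal.ofReal_le_ofReal
  have hL'L : L' ≤ (1 + η) * L := by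
    have : |Real.log q'| ≤ η * L := by
      rw [div_le_iff₀ hη0] at g3; linarith
    have := le_abs_self (Real.log q')
    linarith
  have hL2 : L' ^ 2 ≤ (1 + η) ^ 2 * L ^ 2 := by
    rw [← mul_pow]; exact pow_le_pow_left₀ hL'0.le hL'L 2
  have hR2 : ∫ α in (1 : ℝ)..(ℓ + 2), w α * RT T' α ≤ I2 + (ℓ + 2) * η := by linarith
  calc (1 + η) ^ 3 * (T' * L' ^ 2 * ∫ α in (1 : ℝ)..(ℓ + 2), w α * RT T' α)
      ≤ (1 + η) ^ 3 * (T' * ((1 + η) ^ 2 * L ^ 2) * (I2 + (ℓ + 2) * η)) := by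
        apply mul_le_mul_of_nonneg_left _ (by positivity)
        calc T' * L' ^ 2 * ∫ α in (1 : ℝ)..(ℓ + 2), w α * RT T' α ≤ T' * L' ^ 2 * (I2 + (ℓ + 2) * η) :=
              mul_le_mul_of_nonneg_left hR2 (by positivity)
          _ ≤ _ := mul_le_mul_of_nonneg_right (mul_le_mul_of_nonneg_left hL2 hT'0.le) (by positivity)
    _ = T * L ^ 2 * ((1 / X) * ((1 + η) ^ 6 * (I2 + (ℓ + 2) * η))) := by
        rw [hT'e, hq']; field_simp
    _ ≤ T * L ^ 2 * ((1 / X) * (I2 + ε)) := by gcongr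

theorem avg_prime (h : ∀ a b ε : ℝ, 1 ≤ a → a < b → 0 < ε → ∀ᶠ T in atTop, ∫ α in a..b, RT T α ≤ b - a + ε)
    (K : ℝ → ℝ) (hK : Continuous K) (hK0 : ∀ α, 0 ≤ K α) (ℓ : ℕ) (hℓ : 1 ≤ ℓ)
    (hKs : ∀ α, (ℓ : ℝ) ≤ α → K α = 0) (B : ℝ) (hKB : ∀ α, K α ≤ B) (X Q ε : ℝ) (hX : 0 < X) (hXQ : X < Q)
    (hε : 0 < ε) : ∀ᶠ T in atTop,
    ∫⁻ κ in Ioo (X / T) (Q / T), ENNReal.ofReal (κ⁻¹ ^ 3 * ∫ v, fk κ v ^ 2 * K (v / Real.log T)) ≤
      ENNReal.ofReal (T * Real.log T ^ 2 * ((1 / X) * ((∫ α in (0 : ℝ)..ℓ, K α * min α 1) + ε))) := by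
  have hℓ' : (1 : ℝ) ≤ ℓ := by exact_mod_cast hℓ
  have hQ : 0 < Q := hX.trans hXQ
  set I1 : ℝ := ∫ α in (0 : ℝ)..1, K α * α with hI1
  set I2 : ℝ := ∫ α in (1 : ℝ)..(ℓ : ℝ), K α with hI2
  have hI10 : 0 ≤ I1 := by
    rw [hI1]
    exact intervalIntegral.integral_nonneg zero_le_one fun α hα => mul_nonneg (hK0 α) hα.1
  have hI20 : 0 ≤ I2 := by
    rw [hI2]
    exact intervalIntegral.integral_nonneg hℓ' fun α _ => hK0 α
  have hI : ∫ α in (0 : ℝ)..ℓ, K α * min α 1 = I1 + I2 := by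
    have hc : Continuous fun α : ℝ => K α * min α 1 := by fun_prop
    rw [← intervalIntegral.integral_add_adjacent_intervals (hc.intervalIntegrable 0 1) (hc.intervalIntegrable 1 ℓ)]
    congr 1
    · apply intervalIntegral.integral_congr
      intro α hα
      rw [uIcc_of_le zero_le_one] at hα
      simp only
      rw [min_eq_left hα.2]
    · apply intervalIntegral.integral_congr
      intro α hα
      rw [uIcc_of_le hℓ'] at hα
      simp only
      rw [min_eq_right hα.1, mul_one]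
  filter_upwards [eventually_gt_atTop 1, lift_ev le_one_ev2 X Q hX,
    low_T K hK hK0 ℓ hKs B hKB X Q (ε / 2) hX hXQ (by positivity),
    high_T h K hK hK0 ℓ hℓ' hKs B hKB X Q (ε / 2) hX hXQ (by positivity)] with T hT hκ1' hlow hhigh
  have hT0 : 0 < T := by linarith
  have hL0 : 0 < Real.log T := Real.log_pos hT
  obtain ⟨L, hL⟩ : ∃ L, L = Real.log T := ⟨_, rfl⟩
  rw [← hL] at hlow hhigh hL0 ⊢
  rw [← hI1] at hlow
  rw [← hI2] at hhigh
  have hXT : 0 < X / T := by positivity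
  have hpt : ∀ κ ∈ Ioo (X / T) (Q / T), ENNReal.ofReal (κ⁻¹ ^ 3 * ∫ v, fk κ v ^ 2 * K (v / L)) ≤
      ENNReal.ofReal ((I1 + ε / 2) * L ^ 2 * κ⁻¹ ^ 2) + ENNReal.ofReal (κ⁻¹ ^ 3) *
      ∫⁻ v in Ioi (La κ), ENNReal.ofReal (fk κ v ^ 2 * K (v / L)) := by
    intro κ hκ
    have hκ0 : 0 < κ := hXT.trans hκ.1
    have hκ1 := hκ1' κ hκ
    have hint : Integrable (fun v => fk κ v ^ 2 * K (v / L)) := by
      apply fkG_int κ hκ0.le hκ1 _ (by fun_prop) (fun v => hK0 _) B (ℓ * L)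
      · intro v; exact hKB _
      · intro v hv
        exact hKs _ (by rw [le_div_iff₀ hL0]; exact hv.le)
    rw [← intervalIntegral.integral_Iic_add_Ioi (b := La κ) hint.integrableOn hint.integrableOn,
      ← ofReal_integral_eq_lintegral_ofReal hint.integrableOn
        (Eventually.of_forall fun v => mul_nonneg (sq_nonneg _) (hK0 _)),
      ← ENNReal.ofReal_mul (by positivity), mul_add]
    refine ENNReal.ofReal_add_le.trans (add_le_add ?_ le_rfl)
    apply ENNReal.ofReal_le_ofReal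
    calc κ⁻¹ ^ 3 * ∫ v in Iic (La κ), fk κ v ^ 2 * K (v / L) ≤ κ⁻¹ ^ 3 * ((I1 + ε / 2) * (κ * L ^ 2)) :=
          mul_le_mul_of_nonneg_left (hlow κ hκ) (by positivity)
      _ = _ := by field_simp
  refine (setLIntegral_mono' measurableSet_Ioo hpt).trans ?_
  rw [lintegral_add_left (by fun_prop), inv_sq_lint (X / T) (Q / T) _ hXT
    (div_le_div_of_nonneg_right hXQ.le hT0.le) (by positivity)]
  refine (add_le_add le_rfl hhigh).trans ?_
  rw [← ENNReal.ofReal_add (by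
      apply mul_nonneg (by positivity)
      rw [one_div_div, one_div_div, sub_nonneg]
      exact div_le_div_of_nonneg_left hT0.le hX hXQ.le) (by positivity)]
  apply ENNReal.ofReal_le_ofReal
  rw [hI, one_div_div, one_div_div]
  have h1 : T / X - T / Q ≤ T / X := by
    have : 0 < T / Q := by positivity
    linarith
  calc (I1 + ε / 2) * L ^ 2 * (T / X - T / Q) + T * L ^ 2 * (1 / X * (I2 + ε / 2))
      ≤ (I1 + ε / 2) * L ^ 2 * (T / X) + T * L ^ 2 * (1 / X * (I2 + ε / 2)) := by gcongr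
    _ = _ := by ring

end Pool.Agent.L5helper66.PVP
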