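import Mathlib

/-! Tauberian step (helper66, for helper12's `tauber`): preliminary lemmas. -/

set_option autoImplicit false

open Filter Topology Set MeasureTheory

namespace Pool.Agent.L5helper66.PVT

lemma ii (w μ : ℝ → ℝ) (a b : ℝ) (ha : 0 < a) (hb : 0 < b) (hw : ContinuousOn w (Ioi 0))
    (hμ : Continuous μ) : IntervalIntegrable (fun y => w y * μ y) volume a b := by
  apply ContinuousOn.intervalIntegrable
  refine (hw.mono ?_).mul hμ.continuousOn
  intro y hy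
  exact lt_of_lt_of_le (lt_min ha hb) hy.1

lemma layer (w μ : ℝ → ℝ) (a b M : ℝ) (ha : 0 < a) (hab : a ≤ b) (hM : ∀ y ∈ Icc a b, w y ≤ M)
    (hw : ContinuousOn w (Ioi 0)) (hμ : Continuous μ) (h0 : ∀ y, 0 ≤ μ y) :
    ∫ y in a..b, w y * μ y ≤ M * ∫ y in a..b, μ y := by
  rw [← intervalIntegral.integral_const_mul]
  apply intervalIntegral.integral_mono_on hab
  · exact ii w μ a b ha (lt_of_lt_of_le ha hab) hw hμ
  · exact (continuous_const.mul hμ).intervalIntegrable _ _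
  · intro y hy
    exact mul_le_mul_of_nonneg_right (hM y hy) (h0 y)

lemma tail (μ : ℝ → ℝ → ℝ) (C A B : ℝ) (hA : 0 ≤ A) (hB : 0 ≤ B)
    (hc : ∀ T, Continuous (μ T)) (h0 : ∀ T y, 0 ≤ μ T y)
    (A0 : ∀ V : ℝ, 0 < V → ∀ᶠ T in atTop, ∫ y in V..(2 * V), μ T y ≤ C * V)
    (w : ℝ → ℝ) (hw : ContinuousOn w (Ioi 0)) (hwA : ∀ y > 0, w y ≤ A)
    (hwB : ∀ y > 0, w y ≤ B / y ^ 2) (m k : ℕ) :
    ∀ᶠ T in atTop, ∫ y in ((1 / 2 : ℝ) ^ (m + k))..(2 ^ (m + k)), w y * μ T y ≤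
      (∫ y in ((1 / 2 : ℝ) ^ m)..(2 ^ m), w y * μ T y) +
        C * (A + 2 * B) * ((1 / 2) ^ m - (1 / 2) ^ (m + k)) := by
  induction k with
  | zero => simp
  | succ k ih =>
    have p1 : (0 : ℝ) < (1 / 2) ^ (m + k + 1) := by positivity
    have p2 : (0 : ℝ) < 2 ^ (m + k) := by positivity
    filter_upwards [ih, A0 ((1 / 2) ^ (m + k + 1)) p1, A0 (2 ^ (m + k)) p2] with T h1 h2 h3
    have e1 : (2 : ℝ) * (1 / 2) ^ (m + k + 1) = (1 / 2) ^ (m + k) := by rw [pow_succ]; ring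
    have e2 : (2 : ℝ) * 2 ^ (m + k) = 2 ^ (m + k + 1) := by rw [pow_succ]; ring
    rw [e1] at h2
    rw [e2] at h3
    have p3 : (0 : ℝ) < (1 / 2) ^ (m + k) := by positivity
    have p4 : (0 : ℝ) < 2 ^ (m + k + 1) := by positivity
    have s : ∫ y in ((1 / 2 : ℝ) ^ (m + (k + 1)))..(2 ^ (m + (k + 1))), w y * μ T y =
        (∫ y in ((1 / 2 : ℝ) ^ (m + k + 1))..((1 / 2) ^ (m + k)), w y * μ T y) +
        (∫ y in ((1 / 2 : ℝ) ^ (m + k))..(2 ^ (m + k)), w y * μ T y) +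
        ∫ y in ((2 : ℝ) ^ (m + k))..(2 ^ (m + k + 1)), w y * μ T y := by
      rw [intervalIntegral.integral_add_adjacent_intervals (ii w _ _ _ p1 p3 hw (hc T))
        (ii w _ _ _ p3 p2 hw (hc T)),
        intervalIntegral.integral_add_adjacent_intervals (ii w _ _ _ p1 p2 hw (hc T))
        (ii w _ _ _ p2 p4 hw (hc T))]
      rfl
    rw [s]
    have l1 := layer w (μ T) _ ((1 / 2 : ℝ) ^ (m + k)) A p1 (by linarith)
      (fun y hy => hwA y (lt_of_lt_of_le p1 hy.1)) hw (hc T) (h0 T)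
    have l2 := layer w (μ T) _ ((2 : ℝ) ^ (m + k + 1)) (B / (2 ^ (m + k)) ^ 2) p2 (by linarith)
      (fun y hy => (hwB y (lt_of_lt_of_le p2 hy.1)).trans (by
        apply div_le_div_of_nonneg_left hB (by positivity)
        exact pow_le_pow_left₀ p2.le hy.1 2))
      hw (hc T) (h0 T)
    have l1' := l1.trans (mul_le_mul_of_nonneg_left h2 hA)
    have l2' := l2.trans (mul_le_mul_of_nonneg_left h3 (by positivity))
    have e3 : B / (2 ^ (m + k)) ^ 2 * (C * 2 ^ (m + k)) = 2 * B * C * (1 / 2) ^ (m + k + 1) := by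
      have : (1 / 2 : ℝ) ^ (m + k + 1) = 1 / (2 * 2 ^ (m + k)) := by
        rw [e2, one_div_pow]
      rw [this]
      field_simp
    rw [e3] at l2'
    have e4 : (1 / 2 : ℝ) ^ (m + (k + 1)) = (1 / 2) ^ (m + k + 1) := rfl
    rw [e4]
    have e5 : C * (A + 2 * B) * ((1 / 2) ^ m - (1 / 2) ^ (m + k + 1)) =
        C * (A + 2 * B) * ((1 / 2) ^ m - (1 / 2) ^ (m + k)) + A * (C * (1 / 2) ^ (m + k + 1)) +
          2 * B * C * (1 / 2) ^ (m + k + 1) := by
      rw [← e1]; ring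
    rw [e5]
    linarith

/-- the kernel -/
noncomputable def K (x y : ℝ) : ℝ := (2 - 2 * Real.cos (x * y)) / y ^ 2

lemma K_nonneg (x y : ℝ) : 0 ≤ K x y := by
  unfold K
  have := Real.cos_le_one (x * y)
  exact div_nonneg (by linarith) (sq_nonneg _)

lemma K_le_sq (x y : ℝ) : K x y ≤ x ^ 2 := by
  unfold K
  rcases eq_or_ne y 0 with h | h
  · rw [h]; simp; positivity
  · rw [div_le_iff₀ (by positivity)]
    have := Real.one_sub_sq_div_two_le_cos (x := x * y)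
    nlinarith

lemma K_le (x y : ℝ) : K x y ≤ 4 / y ^ 2 := by
  unfold K
  apply div_le_div_of_nonneg_right _ (sq_nonneg _)
  linarith [Real.neg_one_le_cos (x * y)]

lemma K_cont (x : ℝ) : ContinuousOn (K x) (Ioi 0) := by
  unfold K
  apply ContinuousOn.div
  · fun_prop
  · fun_prop
  · intro y hy
    exact pow_ne_zero 2 (ne_of_gt hy)

lemma K_neg (x y : ℝ) : K (-x) y = K x y := by
  unfold K
  rw [neg_mul, Real.cos_neg]

lemma K_zero (y : ℝ) : K 0 y = 0 := by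
  unfold K; simp

lemma K_meas : Measurable (fun p : ℝ × ℝ => K p.1 p.2) := by
  unfold K; fun_prop

end Pool.Agent.L5helper66.PVT
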