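import Pool.Agent.L5helper66.PVTau0

/-! Tauberian step (helper66, for helper12's `tauber`): the truncated transforms. -/

set_option autoImplicit false

open Filter Topology Set MeasureTheory

namespace Pool.Agent.L5helper66.PVT

lemma K_int (x a b : ℝ) (hx : 0 < x) :
    ∫ y in a..b, K x y = x * ∫ t in (x * a)..(x * b), (2 - 2 * Real.cos t) / t ^ 2 := by
  have : ∀ y, K x y = x ^ 2 * ((fun t => (2 - 2 * Real.cos t) / t ^ 2) (x * y)) := by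
    intro y
    unfold K
    simp only
    rw [mul_pow, ← mul_div_assoc, mul_div_mul_left _ _ (pow_ne_zero 2 hx.ne')]
  simp_rw [this]
  have h := intervalIntegral.integral_comp_mul_left (a := a) (b := b)
    (fun t => (2 - 2 * Real.cos t) / t ^ 2) hx.ne'
  rw [intervalIntegral.integral_const_mul, h, smul_eq_mul]
  field_simp

lemma split_int (w ν : ℝ → ℝ) (ρ a b : ℝ) (ha : 0 < a) (hb : 0 < b)
    (hw : ContinuousOn w (Ioi 0)) (hν : Continuous ν) :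
    ∫ y in a..b, w y * (ν y - ρ) = (∫ y in a..b, w y * ν y) - ρ * ∫ y in a..b, w y := by
  have e : ∀ y, w y * (ν y - ρ) = w y * ν y - w y * ρ := fun y => by ring
  simp_rw [e]
  rw [intervalIntegral.integral_sub (ii w ν a b ha hb hw hν)
    (ii w (fun _ => ρ) a b ha hb hw continuous_const), intervalIntegral.integral_mul_const]
  ring

lemma I_le (m : ℕ) : (1 / 2 : ℝ) ^ m ≤ 2 ^ m :=
  (pow_le_one₀ (by norm_num) (by norm_num)).trans (one_le_pow₀ (by norm_num))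

lemma upper (hlo : ∀ a b : ℝ, 0 < a → a ≤ b →
      Real.pi - a - 4 / b ≤ ∫ t in a..b, (2 - 2 * Real.cos t) / t ^ 2)
    (ν : ℝ → ℝ → ℝ) (ρ C0 : ℝ) (hρ : 0 ≤ ρ) (hC0 : 0 ≤ C0) (hc : ∀ T, Continuous (ν T))
    (Aup : ∀ X : ℝ, 0 < X → ∀ y0 y1 : ℝ, 0 < y0 → y0 ≤ y1 → ∀ ε : ℝ, 0 < ε → ∀ᶠ T in atTop,
      ∫ y in y0..y1, (2 - 2 * Real.cos (X * y)) / y ^ 2 * ν T y ≤ X * (Real.pi * ρ + ε))
    (x : ℝ) (hx : 0 < x) (m : ℕ) (ε : ℝ) (hε : 0 < ε) :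
    ∀ᶠ T in atTop, ∫ y in ((1 / 2 : ℝ) ^ m)..(2 ^ m), K x y * (ν T y - ρ) ≤
      ε + (C0 + ρ) * (x ^ 2 + 8) * (1 / 2) ^ m := by
  have p1 : (0 : ℝ) < (1 / 2) ^ m := by positivity
  have p2 : (0 : ℝ) < 2 ^ m := by positivity
  filter_upwards [Aup x hx ((1 / 2) ^ m) (2 ^ m) p1 (I_le m) (ε / x) (by positivity)] with T hT
  rw [split_int (K x) (ν T) ρ _ _ p1 p2 (K_cont x) (hc T)]
  have h2 : x * (Real.pi - x * (1 / 2) ^ m - 4 / (x * 2 ^ m)) ≤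
      ∫ y in ((1 / 2 : ℝ) ^ m)..(2 ^ m), K x y := by
    rw [K_int x _ _ hx]
    exact mul_le_mul_of_nonneg_left
      (hlo _ _ (by positivity) (mul_le_mul_of_nonneg_left (I_le m) hx.le)) hx.le
  have e1 : x * (Real.pi - x * (1 / 2) ^ m - 4 / (x * 2 ^ m)) =
      x * Real.pi - (x ^ 2 + 4) * (1 / 2) ^ m := by
    rw [one_div_pow]
    field_simp
    ring
  have e2 : x * (Real.pi * ρ + ε / x) = x * Real.pi * ρ + ε := by
    field_simp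
  rw [e1] at h2
  rw [e2] at hT
  have h3 := mul_le_mul_of_nonneg_left h2 hρ
  have hT' : ∫ y in ((1 / 2 : ℝ) ^ m)..(2 ^ m), K x y * ν T y ≤ x * Real.pi * ρ + ε := hT
  have h4 : 0 ≤ C0 * (x ^ 2 + 8) * (1 / 2) ^ m := by positivity
  have h5 : 0 ≤ ρ * (1 / 2) ^ m := by positivity
  nlinarith

lemma lower (hup : ∀ a b : ℝ, 0 < a → a ≤ b →
      ∫ t in a..b, (2 - 2 * Real.cos t) / t ^ 2 ≤ Real.pi)
    (ν : ℝ → ℝ → ℝ) (ρ C0 : ℝ) (hρ : 0 ≤ ρ) (hC0 : 0 ≤ C0) (hc : ∀ T, Continuous (ν T))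
    (h0 : ∀ T y, 0 ≤ ν T y)
    (A0 : ∀ V : ℝ, 0 < V → ∀ᶠ T in atTop, ∫ y in V..(2 * V), ν T y ≤ C0 * V)
    (Alow : ∀ ε : ℝ, 0 < ε → ∃ a b : ℝ, 0 < a ∧ a ≤ b ∧ ∀ X : ℝ, 0 < X → ∀ᶠ T in atTop,
      X * (Real.pi * ρ - ε) ≤
        ∫ y in (a / X)..(b / X), (2 - 2 * Real.cos (X * y)) / y ^ 2 * ν T y)
    (x : ℝ) (hx : 0 < x) (m : ℕ) (ε : ℝ) (hε : 0 < ε) :
    ∀ᶠ T in atTop, -(ε + (C0 + ρ) * (x ^ 2 + 8) * (1 / 2) ^ m) ≤
      ∫ y in ((1 / 2 : ℝ) ^ m)..(2 ^ m), K x y * (ν T y - ρ) := by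
  have p1 : (0 : ℝ) < (1 / 2) ^ m := by positivity
  have p2 : (0 : ℝ) < 2 ^ m := by positivity
  obtain ⟨a, b, ha, hab, hA⟩ := Alow (ε / x) (by positivity)
  obtain ⟨N1, hN1⟩ := exists_pow_lt_of_lt_one (show 0 < a / x by positivity)
    (show (1 / 2 : ℝ) < 1 by norm_num)
  obtain ⟨N2, hN2⟩ := pow_unbounded_of_one_lt (b / x) (show (1 : ℝ) < 2 by norm_num)
  set k := max N1 N2 with hk
  have q1 : (1 / 2 : ℝ) ^ (m + k) ≤ a / x :=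
    (pow_le_pow_of_le_one (by norm_num) (by norm_num) (by omega)).trans hN1.le
  have q2 : b / x ≤ 2 ^ (m + k) :=
    hN2.le.trans (pow_le_pow_right₀ (by norm_num) (by omega))
  have q3 : a / x ≤ b / x := div_le_div_of_nonneg_right hab hx.le
  filter_upwards [hA x hx, tail ν C0 (x ^ 2) 4 (by positivity) (by norm_num) hc h0 A0 (K x)
    (K_cont x) (fun y _ => K_le_sq x y) (fun y _ => K_le x y) m k] with T h1 h2
  rw [split_int (K x) (ν T) ρ _ _ p1 p2 (K_cont x) (hc T)]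
  have h3 : ∫ y in (a / x)..(b / x), K x y * ν T y ≤
      ∫ y in ((1 / 2 : ℝ) ^ (m + k))..(2 ^ (m + k)), K x y * ν T y := by
    apply intervalIntegral.integral_mono_interval q1 q3 q2
    · exact Eventually.of_forall fun y => mul_nonneg (K_nonneg x y) (h0 T y)
    · exact ii _ _ _ _ (by positivity) (by positivity) (K_cont x) (hc T)
  have h1' : x * (Real.pi * ρ - ε / x) ≤ ∫ y in (a / x)..(b / x), K x y * ν T y := h1
  have e2 : x * (Real.pi * ρ - ε / x) = x * Real.pi * ρ - ε := by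
    field_simp
  rw [e2] at h1'
  have h4 : ∫ y in ((1 / 2 : ℝ) ^ m)..(2 ^ m), K x y ≤ x * Real.pi := by
    rw [K_int x _ _ hx]
    exact mul_le_mul_of_nonneg_left
      (hup _ _ (by positivity) (mul_le_mul_of_nonneg_left (I_le m) hx.le)) hx.le
  have h5 := mul_le_mul_of_nonneg_left h4 hρ
  have h6 : 0 ≤ C0 * (x ^ 2 + 2 * 4) * (1 / 2) ^ (m + k) := by positivity
  have h7 : 0 ≤ ρ * (x ^ 2 + 8) * (1 / 2) ^ m := by positivity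
  nlinarith

lemma H_bound (hup : ∀ a b : ℝ, 0 < a → a ≤ b →
      ∫ t in a..b, (2 - 2 * Real.cos t) / t ^ 2 ≤ Real.pi)
    (hlo : ∀ a b : ℝ, 0 < a → a ≤ b →
      Real.pi - a - 4 / b ≤ ∫ t in a..b, (2 - 2 * Real.cos t) / t ^ 2)
    (ν : ℝ → ℝ → ℝ) (ρ C0 : ℝ) (hρ : 0 ≤ ρ) (hC0 : 0 ≤ C0) (hc : ∀ T, Continuous (ν T))
    (h0 : ∀ T y, 0 ≤ ν T y)
    (A0 : ∀ V : ℝ, 0 < V → ∀ᶠ T in atTop, ∫ y in V..(2 * V), ν T y ≤ C0 * V)
    (Aup : ∀ X : ℝ, 0 < X → ∀ y0 y1 : ℝ, 0 < y0 → y0 ≤ y1 → ∀ ε : ℝ, 0 < ε → ∀ᶠ T in atTop,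
      ∫ y in y0..y1, (2 - 2 * Real.cos (X * y)) / y ^ 2 * ν T y ≤ X * (Real.pi * ρ + ε))
    (Alow : ∀ ε : ℝ, 0 < ε → ∃ a b : ℝ, 0 < a ∧ a ≤ b ∧ ∀ X : ℝ, 0 < X → ∀ᶠ T in atTop,
      X * (Real.pi * ρ - ε) ≤
        ∫ y in (a / X)..(b / X), (2 - 2 * Real.cos (X * y)) / y ^ 2 * ν T y)
    (x : ℝ) (m : ℕ) (ε : ℝ) (hε : 0 < ε) :
    ∀ᶠ T in atTop, |∫ y in ((1 / 2 : ℝ) ^ m)..(2 ^ m), K x y * (ν T y - ρ)| ≤
      ε + (C0 + ρ) * (x ^ 2 + 8) * (1 / 2) ^ m := by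
  rcases lt_trichotomy x 0 with hx | hx | hx
  · have hx' : 0 < -x := by linarith
    filter_upwards [upper hlo ν ρ C0 hρ hC0 hc Aup (-x) hx' m ε hε,
      lower hup ν ρ C0 hρ hC0 hc h0 A0 Alow (-x) hx' m ε hε] with T h1 h2
    simp only [K_neg, neg_sq] at h1 h2
    exact abs_le.2 ⟨h2, h1⟩
  · subst hx
    refine Eventually.of_forall fun T => ?_
    simp only [K_zero, zero_mul, intervalIntegral.integral_zero, abs_zero]
    positivity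
  · filter_upwards [upper hlo ν ρ C0 hρ hC0 hc Aup x hx m ε hε,
      lower hup ν ρ C0 hρ hC0 hc h0 A0 Alow x hx m ε hε] with T h1 h2
    exact abs_le.2 ⟨h2, h1⟩

end Pool.Agent.L5helper66.PVT
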