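import Pool.Agent.L5helper66.PVTau1

/-! Tauberian step (helper66, for helper12's `tauber`): Gaussian averages. -/

set_option autoImplicit false

open Filter Topology Set MeasureTheory ProbabilityTheory

namespace Pool.Agent.L5helper66.PVT

/-- the Gaussian weight of variance `2 n` -/
noncomputable def G (n : ℕ) : Measure ℝ := gaussianReal 0 (2 * n)

instance instG (n : ℕ) : IsProbabilityMeasure (G n) := by unfold G; infer_instance

lemma G_cos (n : ℕ) (y : ℝ) : ∫ x, Real.cos (x * y) ∂(G n) = Real.exp (-(n * y ^ 2)) := by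
  have h := charFun_gaussianReal (μ := 0) (v := 2 * n) y
  rw [charFun_apply_real] at h
  have hi : Integrable (fun x : ℝ => Complex.exp (y * x * Complex.I)) (G n) := by
    refine Integrable.of_bound (C := 1) ?_ ?_
    · exact (by fun_prop : Continuous fun x : ℝ => Complex.exp (y * x * Complex.I)).aestronglyMeasurable
    · refine Eventually.of_forall fun x => ?_
      rw [← Complex.ofReal_mul, Complex.norm_exp_ofReal_mul_I]
  have h1 := integral_re hi
  have h2 : ∀ x : ℝ, RCLike.re (Complex.exp (y * x * Complex.I)) = Real.cos (x * y) := by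
    intro x
    rw [← Complex.ofReal_mul, mul_comm x y]
    exact Complex.exp_ofReal_mul_I_re _
  simp_rw [h2] at h1
  rw [h1]
  unfold G
  rw [h]
  have e : (y : ℂ) * ((0 : ℝ) : ℂ) * Complex.I - (((2 * (n : NNReal) : NNReal) : ℝ) : ℂ) * (y : ℂ) ^ 2 / 2 =
      ((-(n * y ^ 2) : ℝ) : ℂ) := by
    push_cast; ring
  rw [e, ← Complex.ofReal_exp]
  rfl

lemma G_K (n : ℕ) (y : ℝ) :
    ∫ x, K x y ∂(G n) = 2 * ((1 - Real.exp (-(n * y ^ 2))) / y ^ 2) := by
  unfold K
  rw [integral_div, integral_sub (integrable_const _), integral_const_mul, G_cos]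
  · simp; ring
  · refine Integrable.of_bound (C := 2) ?_ ?_
    · exact (by fun_prop : Continuous fun x : ℝ => 2 * Real.cos (x * y)).aestronglyMeasurable
    · refine Eventually.of_forall fun x => ?_
      rw [Real.norm_eq_abs, abs_mul, abs_of_pos (by norm_num : (0 : ℝ) < 2)]
      linarith [Real.abs_cos_le_one (x * y)]

lemma G_sq (n : ℕ) (C : ℝ) : Integrable (fun x : ℝ => C * (x ^ 2 + 8)) (G n) := by
  have h : MemLp (id : ℝ → ℝ) 2 (G n) := memLp_id_gaussianReal' 2 (by norm_num)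
  exact (h.integrable_sq.add (integrable_const 8)).const_mul C

lemma fub (g : ℝ → ℝ) (hg : Continuous g) (a b : ℝ) (ha : 0 < a) (hab : a ≤ b) (n : ℕ) :
    ∫ x, (∫ y in a..b, K x y * g y) ∂(G n) =
      2 * ∫ y in a..b, (1 - Real.exp (-(n * y ^ 2))) / y ^ 2 * g y := by
  obtain ⟨M, hM⟩ := (isCompact_Icc (a := a) (b := b)).exists_bound_of_continuousOn hg.continuousOn
  have hM0 : 0 ≤ M := (norm_nonneg _).trans (hM a (left_mem_Icc.2 hab))
  have hint : Integrable (Function.uncurry fun x y => K x y * g y)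
      ((G n).prod (volume.restrict (Ioc a b))) := by
    refine Integrable.of_bound (C := 4 / a ^ 2 * M) ?_ ?_
    · exact (K_meas.mul (hg.measurable.comp measurable_snd)).aestronglyMeasurable
    · have h1 : ∀ᵐ y ∂(volume.restrict (Ioc a b)), y ∈ Ioc a b := ae_restrict_mem measurableSet_Ioc
      have h2 := (Measure.quasiMeasurePreserving_snd (μ := G n) (ν := volume.restrict (Ioc a b))).ae h1
      filter_upwards [h2] with p hp
      simp only [Function.uncurry]
      rw [norm_mul, Real.norm_eq_abs, abs_of_nonneg (K_nonneg _ _)]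
      apply mul_le_mul _ (hM p.2 ⟨hp.1.le, hp.2⟩) (norm_nonneg _) (by positivity)
      refine (K_le _ _).trans ?_
      exact div_le_div_of_nonneg_left (by norm_num) (by positivity) (pow_le_pow_left₀ ha.le hp.1.le 2)
  have h3 := integral_integral_swap hint
  simp_rw [intervalIntegral.integral_of_le hab]
  rw [h3, ← integral_const_mul]
  congr 1
  ext y
  rw [integral_mul_const, G_K]
  ring

lemma H_meas (g : ℝ → ℝ) (hg : Continuous g) (a b : ℝ) (hab : a ≤ b) :
    StronglyMeasurable (fun x => ∫ y in a..b, K x y * g y) := by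
  simp_rw [intervalIntegral.integral_of_le hab]
  apply StronglyMeasurable.integral_prod_right
  exact (K_meas.mul (hg.measurable.comp measurable_snd)).stronglyMeasurable

lemma abs_le_int (w g μ : ℝ → ℝ) (a b : ℝ) (ha : 0 < a) (hab : a ≤ b)
    (hw : ContinuousOn w (Ioi 0)) (hw0 : ∀ y, 0 ≤ w y) (hμ : Continuous μ)
    (hgμ : ∀ y, |g y| ≤ μ y) :
    |∫ y in a..b, w y * g y| ≤ ∫ y in a..b, w y * μ y := by
  rw [← Real.norm_eq_abs]
  apply intervalIntegral.norm_integral_le_of_norm_le hab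
  · refine Eventually.of_forall fun y _ => ?_
    rw [Real.norm_eq_abs, abs_mul, abs_of_nonneg (hw0 y)]
    exact mul_le_mul_of_nonneg_left (hgμ y) (hw0 y)
  · exact ii w μ a b ha (lt_of_lt_of_le ha hab) hw hμ

/-- uniform bound for the truncated transforms -/
lemma H_unif (g μ : ℝ → ℝ → ℝ) (hμ : ∀ T, Continuous (μ T))
    (hgμ : ∀ T y, |g T y| ≤ μ T y) (C1 : ℝ) (hC1 : 0 ≤ C1)
    (A0 : ∀ V : ℝ, 0 < V → ∀ᶠ T in atTop, ∫ y in V..(2 * V), μ T y ≤ C1 * V) (m : ℕ) :
    ∃ M : ℝ, ∀ᶠ T in atTop, ∀ x, |∫ y in ((1 / 2 : ℝ) ^ m)..(2 ^ m), K x y * g T y| ≤ M := by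
  have h0 : ∀ T y, 0 ≤ μ T y := fun T y => (abs_nonneg _).trans (hgμ T y)
  have hw : ContinuousOn (fun y : ℝ => 1 / (1 + y ^ 2)) (Ioi 0) := by
    apply ContinuousOn.div (by fun_prop) (by fun_prop)
    intro y _
    positivity
  have ht := tail μ C1 1 1 (by norm_num) (by norm_num) hμ h0 A0 (fun y => 1 / (1 + y ^ 2)) hw
    (fun y _ => by
      rw [div_le_one (by positivity)]
      nlinarith [sq_nonneg y])
    (fun y hy => by
      apply one_div_le_one_div_of_le (by positivity)
      linarith) 0 m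
  have p1 : (0 : ℝ) < (1 / 2) ^ m := by positivity
  have p2 : (0 : ℝ) < 2 ^ m := by positivity
  refine ⟨(4 * (2 ^ m) ^ 2 + 4) * (3 * C1), ?_⟩
  filter_upwards [ht] with T hT x
  have hT' : ∫ y in ((1 / 2 : ℝ) ^ m)..(2 ^ m), 1 / (1 + y ^ 2) * μ T y ≤ 3 * C1 := by
    refine (le_of_eq ?_).trans (hT.trans ?_)
    · rw [zero_add]
    · simp only [pow_zero, intervalIntegral.integral_same, zero_add]
      have : 0 ≤ C1 * (1 / 2) ^ m := by positivity
      nlinarith
  have h1 := abs_le_int (K x) (g T) (μ T) _ _ p1 (I_le m) (K_cont x) (K_nonneg x) (hμ T) (hgμ T)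
  refine h1.trans ?_
  refine le_trans ?_ (mul_le_mul_of_nonneg_left hT' (by positivity))
  rw [← intervalIntegral.integral_const_mul]
  apply intervalIntegral.integral_mono_on (I_le m)
  · exact ii _ _ _ _ p1 p2 (K_cont x) (hμ T)
  · exact (ii _ _ _ _ p1 p2 hw (hμ T)).const_mul _
  · intro y hy
    have hy0 : 0 < y := lt_of_lt_of_le p1 hy.1
    rw [← mul_assoc]
    apply mul_le_mul_of_nonneg_right _ (h0 T y)
    refine (K_le x y).trans ?_
    rw [mul_one_div, div_le_div_iff₀ (by positivity) (by positivity)]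
    have h2 : 1 ≤ (2 ^ m) ^ 2 * y ^ 2 := by
      rw [← mul_pow]
      apply one_le_pow₀
      calc (1 : ℝ) = 2 ^ m * (1 / 2) ^ m := by rw [one_div_pow]; field_simp
        _ ≤ _ := mul_le_mul_of_nonneg_left hy.1 p2.le
    nlinarith

lemma avg (g μ : ℝ → ℝ → ℝ) (hg : ∀ T, Continuous (g T)) (hμ : ∀ T, Continuous (μ T))
    (hgμ : ∀ T y, |g T y| ≤ μ T y) (C1 : ℝ) (hC1 : 0 ≤ C1)
    (A0 : ∀ V : ℝ, 0 < V → ∀ᶠ T in atTop, ∫ y in V..(2 * V), μ T y ≤ C1 * V)
    (HB : ∀ (x : ℝ) (m : ℕ) (ε : ℝ), 0 < ε → ∀ᶠ T in atTop,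
      |∫ y in ((1 / 2 : ℝ) ^ m)..(2 ^ m), K x y * g T y| ≤ ε + C1 * (x ^ 2 + 8) * (1 / 2) ^ m)
    (n : ℕ) :
    ∃ D : ℝ, 0 ≤ D ∧ ∀ (m : ℕ) (ε : ℝ), 0 < ε → ∀ᶠ T in atTop,
      |∫ y in ((1 / 2 : ℝ) ^ m)..(2 ^ m), (1 - Real.exp (-(n * y ^ 2))) / y ^ 2 * g T y| ≤
        ε + D * (1 / 2) ^ m := by
  refine ⟨∫ x, C1 * (x ^ 2 + 8) ∂(G n), integral_nonneg fun x => by positivity, ?_⟩
  intro m ε hε
  have p1 : (0 : ℝ) < (1 / 2) ^ m := by positivity
  obtain ⟨M, hM⟩ := H_unif g μ hμ hgμ C1 hC1 A0 m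
  set H : ℝ → ℝ → ℝ := fun T x => ∫ y in ((1 / 2 : ℝ) ^ m)..(2 ^ m), K x y * g T y with hH
  set F : ℝ → ℝ → ℝ := fun T x => max (|H T x| - C1 * (x ^ 2 + 8) * (1 / 2) ^ m) 0 with hF
  have hHm : ∀ T, StronglyMeasurable (H T) := fun T => H_meas (g T) (hg T) _ _ (I_le m)
  have hFm : ∀ T, StronglyMeasurable (F T) := by
    intro T
    have h1 : Measurable (F T) := by
      have := (hHm T).measurable
      simp only [hF]
      fun_prop
    exact h1.stronglyMeasurable
  have hlim : Tendsto (fun T => ∫ x, F T x ∂(G n)) atTop (𝓝 (∫ _, (0 : ℝ) ∂(G n))) := by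
    apply tendsto_integral_filter_of_dominated_convergence (fun _ => |M|)
    · exact Eventually.of_forall fun T => (hFm T).aestronglyMeasurable
    · filter_upwards [hM] with T hT
      refine Eventually.of_forall fun x => ?_
      rw [Real.norm_eq_abs, abs_of_nonneg (le_max_right _ _)]
      apply max_le _ (abs_nonneg _)
      have h2 : 0 ≤ C1 * (x ^ 2 + 8) * (1 / 2) ^ m := by positivity
      have := hT x
      have h3 := le_abs_self M
      simp only [hH]
      linarith
    · exact integrable_const _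
    · refine Eventually.of_forall fun x => ?_
      rw [Metric.tendsto_nhds]
      intro δ hδ
      filter_upwards [HB x m (δ / 2) (by positivity)] with T hT
      rw [Real.dist_eq, sub_zero, abs_of_nonneg (le_max_right _ _)]
      apply max_lt _ hδ
      simp only [hH]
      linarith
  rw [integral_zero] at hlim
  filter_upwards [hM, hlim.eventually (gt_mem_nhds hε)] with T hT hT2
  have hHi : Integrable (H T) (G n) := by
    refine Integrable.of_bound (C := M) (hHm T).aestronglyMeasurable ?_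
    exact Eventually.of_forall fun x => hT x
  have hFi : Integrable (F T) (G n) := by
    refine Integrable.of_bound (C := |M|) (hFm T).aestronglyMeasurable ?_
    refine Eventually.of_forall fun x => ?_
    rw [Real.norm_eq_abs, abs_of_nonneg (le_max_right _ _)]
    apply max_le _ (abs_nonneg _)
    have h2 : 0 ≤ C1 * (x ^ 2 + 8) * (1 / 2) ^ m := by positivity
    have := hT x
    have h3 := le_abs_self M
    simp only [hH]
    linarith
  have e1 := fub (g T) (hg T) _ _ p1 (I_le m) n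
  have e2 : |∫ x, H T x ∂(G n)| ≤ ε + (∫ x, C1 * (x ^ 2 + 8) ∂(G n)) * (1 / 2) ^ m := by
    calc |∫ x, H T x ∂(G n)| ≤ ∫ x, |H T x| ∂(G n) := by
          have := norm_integral_le_integral_norm (μ := G n) (H T)
          simpa only [Real.norm_eq_abs] using this
      _ ≤ ∫ x, (F T x + C1 * (x ^ 2 + 8) * (1 / 2) ^ m) ∂(G n) := by
          apply integral_mono
          · exact hHi.abs
          · exact hFi.add ((G_sq n C1).mul_const _)
          · intro x
            have := le_max_left (|H T x| - C1 * (x ^ 2 + 8) * (1 / 2) ^ m) 0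
            simp only [hF]
            linarith
      _ = (∫ x, F T x ∂(G n)) + (∫ x, C1 * (x ^ 2 + 8) ∂(G n)) * (1 / 2) ^ m := by
          rw [integral_add hFi ((G_sq n C1).mul_const _), integral_mul_const]
      _ ≤ _ := by linarith
  have e3 : (∫ x, H T x ∂(G n)) =
      2 * ∫ y in ((1 / 2 : ℝ) ^ m)..(2 ^ m), (1 - Real.exp (-(n * y ^ 2))) / y ^ 2 * g T y := e1
  rw [e3, abs_mul, abs_of_pos (by norm_num : (0 : ℝ) < 2)] at e2
  have := abs_nonneg (∫ y in ((1 / 2 : ℝ) ^ m)..(2 ^ m), (1 - Real.exp (-(n * y ^ 2))) / y ^ 2 * g T y)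
  linarith

end Pool.Agent.L5helper66.PVT
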