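import Pool.Agent.L5helper66.PVTau2

/-! Tauberian step (helper66, for helper12's `tauber`): from Gaussian averages to windows. -/

set_option autoImplicit false

open Filter Topology Set MeasureTheory Polynomial

namespace Pool.Agent.L5helper66.PVT

/-- the truncated integrals of `w` against `g T` are eventually small, up to the truncation -/
def Sm (g : ℝ → ℝ → ℝ) (w : ℝ → ℝ) : Prop :=
  ∃ D : ℝ, 0 ≤ D ∧ ∀ (m : ℕ) (ε : ℝ), 0 < ε → ∀ᶠ T in atTop,
    |∫ y in ((1 / 2 : ℝ) ^ m)..(2 ^ m), w y * g T y| ≤ ε + D * (1 / 2) ^ m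

lemma Sm_add (g : ℝ → ℝ → ℝ) (hg : ∀ T, Continuous (g T)) (w1 w2 : ℝ → ℝ)
    (hw1 : ContinuousOn w1 (Ioi 0)) (hw2 : ContinuousOn w2 (Ioi 0)) (h1 : Sm g w1) (h2 : Sm g w2) :
    Sm g (fun y => w1 y + w2 y) := by
  obtain ⟨D1, hD1, H1⟩ := h1
  obtain ⟨D2, hD2, H2⟩ := h2
  refine ⟨D1 + D2, by positivity, fun m ε hε => ?_⟩
  filter_upwards [H1 m (ε / 2) (by positivity), H2 m (ε / 2) (by positivity)] with T a1 a2
  have p1 : (0 : ℝ) < (1 / 2) ^ m := by positivity
  have p2 : (0 : ℝ) < 2 ^ m := by positivity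
  have e : ∀ y, (w1 y + w2 y) * g T y = w1 y * g T y + w2 y * g T y := fun y => by ring
  simp_rw [e]
  rw [intervalIntegral.integral_add (ii _ _ _ _ p1 p2 hw1 (hg T)) (ii _ _ _ _ p1 p2 hw2 (hg T))]
  refine (abs_add_le _ _).trans ?_
  linarith

lemma Sm_mul (g : ℝ → ℝ → ℝ) (w : ℝ → ℝ) (c : ℝ) (h : Sm g w) : Sm g (fun y => c * w y) := by
  obtain ⟨D, hD, H⟩ := h
  refine ⟨|c| * D, by positivity, fun m ε hε => ?_⟩
  have hc : 0 < |c| + 1 := by positivity
  filter_upwards [H m (ε / (|c| + 1)) (by positivity)] with T a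
  have e : ∀ y, c * w y * g T y = c * (w y * g T y) := fun y => by ring
  simp_rw [e]
  rw [intervalIntegral.integral_const_mul, abs_mul]
  refine (mul_le_mul_of_nonneg_left a (abs_nonneg c)).trans ?_
  rw [mul_add, ← mul_assoc]
  have : |c| * (ε / (|c| + 1)) ≤ ε := by
    rw [← mul_div_assoc, div_le_iff₀ hc]
    nlinarith [abs_nonneg c]
  linarith

/-- the weight of index `n` -/
noncomputable def wn (n : ℕ) (y : ℝ) : ℝ := (1 - Real.exp (-(n * y ^ 2))) / y ^ 2

lemma wn_cont (n : ℕ) : ContinuousOn (wn n) (Ioi 0) := by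
  unfold wn
  apply ContinuousOn.div (by fun_prop) (by fun_prop)
  intro y hy
  exact pow_ne_zero 2 (ne_of_gt hy)

/-- the weight of a polynomial -/
noncomputable def wp (r : ℝ[X]) (y : ℝ) : ℝ :=
  (1 - Real.exp (-y ^ 2)) * r.eval (Real.exp (-y ^ 2)) / y ^ 2

lemma wp_cont (r : ℝ[X]) : ContinuousOn (wp r) (Ioi 0) := by
  unfold wp
  apply ContinuousOn.div _ (by fun_prop)
  · intro y hy
    exact pow_ne_zero 2 (ne_of_gt hy)
  · apply Continuous.continuousOn
    apply Continuous.mul (by fun_prop)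
    exact r.continuous.comp (by fun_prop)

lemma Sm_poly (g : ℝ → ℝ → ℝ) (hg : ∀ T, Continuous (g T)) (h : ∀ n, Sm g (wn n)) (r : ℝ[X]) :
    Sm g (wp r) := by
  induction r using Polynomial.induction_on' with
  | add p q hp hq =>
    have := Sm_add g hg _ _ (wp_cont p) (wp_cont q) hp hq
    convert this using 2 with y
    unfold wp
    rw [eval_add]
    ring
  | monomial n a =>
    have h1 := Sm_mul g _ a (h (n + 1))
    have h2 := Sm_mul g _ (-a) (h n)
    have := Sm_add g hg _ _ (continuousOn_const.mul (wn_cont (n + 1)))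
      (continuousOn_const.mul (wn_cont n)) h1 h2
    convert this using 2 with y
    unfold wp wn
    rw [eval_monomial, ← Real.exp_nat_mul]
    have e1 : Real.exp (-((n + 1 : ℕ) * y ^ 2)) = Real.exp (n * -y ^ 2) * Real.exp (-y ^ 2) := by
      rw [← Real.exp_add]; congr 1; push_cast; ring
    have e2 : Real.exp (-((n : ℕ) * y ^ 2)) = Real.exp (n * -y ^ 2) := by
      congr 1; ring
    simp only [Pi.mul_apply]
    rw [e1, e2]
    ring

lemma weier (τ : ℝ → ℝ) (hτ : Continuous τ) (h1 : ∀ y ≤ 1 / 2, τ y = 0) (h2 : ∀ y ≥ 3, τ y = 0) :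
    ∃ F : ℝ → ℝ, Continuous F ∧ ∀ y : ℝ, 0 < y →
      τ y = (1 - Real.exp (-y ^ 2)) * F (Real.exp (-y ^ 2)) / y ^ 2 := by
  set c1 := Real.exp (-9) with hc1
  set c2 := Real.exp (-(1 / 4)) with hc2
  have c12 : c1 ≤ c2 := Real.exp_le_exp.2 (by norm_num)
  have c1p : 0 < c1 := Real.exp_pos _
  have c2l : c2 < 1 := by
    rw [hc2, ← Real.exp_zero]
    exact Real.exp_lt_exp.2 (by norm_num)
  set cl : ℝ → ℝ := fun z => max c1 (min z c2) with hcl
  have clc : Continuous cl := by fun_prop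
  have clp : ∀ z, 0 < cl z := fun z => lt_of_lt_of_le c1p (le_max_left _ _)
  have cll : ∀ z, cl z < 1 := fun z => lt_of_le_of_lt (max_le c12 (min_le_right _ _)) c2l
  refine ⟨fun z => (-Real.log (cl z)) * τ (Real.sqrt (-Real.log (cl z))) / (1 - cl z), ?_, ?_⟩
  · have hl : Continuous fun z => -Real.log (cl z) :=
      (clc.log (fun z => (clp z).ne')).neg
    apply Continuous.div
    · exact hl.mul (hτ.comp (Real.continuous_sqrt.comp hl))
    · exact continuous_const.sub clc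
    · intro z
      linarith [cll z]
  · intro y hy
    rcases le_total y (1 / 2) with h | h
    · have hz : c2 ≤ Real.exp (-y ^ 2) := Real.exp_le_exp.2 (by nlinarith)
      have e1 : cl (Real.exp (-y ^ 2)) = c2 := by
        simp only [hcl]
        rw [min_eq_right hz, max_eq_right c12]
      have e2 : Real.sqrt (-Real.log c2) = 1 / 2 := by
        rw [hc2, Real.log_exp, neg_neg, show (1 / 4 : ℝ) = (1 / 2) ^ 2 by norm_num,
          Real.sqrt_sq (by norm_num)]
      simp only [e1, e2, h1 y h, h1 (1 / 2) le_rfl]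
      simp
    · rcases le_total y 3 with h' | h'
      · have hz : Real.exp (-y ^ 2) ≤ c2 := Real.exp_le_exp.2 (by nlinarith)
        have hz' : c1 ≤ Real.exp (-y ^ 2) := Real.exp_le_exp.2 (by nlinarith)
        have e1 : cl (Real.exp (-y ^ 2)) = Real.exp (-y ^ 2) := by
          simp only [hcl]
          rw [min_eq_left hz, max_eq_right hz']
        have e3 : Real.exp (-y ^ 2) < 1 := by rw [← e1]; exact cll _
        simp only [e1, Real.log_exp, neg_neg, Real.sqrt_sq hy.le]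
        have e4 : (1 - Real.exp (-y ^ 2)) ≠ 0 := by linarith
        have e5 : y ≠ 0 := hy.ne'
        field_simp
      · have hz : Real.exp (-y ^ 2) ≤ c1 := Real.exp_le_exp.2 (by nlinarith)
        have e1 : cl (Real.exp (-y ^ 2)) = c1 := by
          simp only [hcl]
          rw [min_eq_left (hz.trans c12), max_eq_left hz]
        have e2 : Real.sqrt (-Real.log c1) = 3 := by
          rw [hc1, Real.log_exp, neg_neg, show (9 : ℝ) = 3 ^ 2 by norm_num,
            Real.sqrt_sq (by norm_num)]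
        simp only [e1, e2, h2 y h', h2 3 le_rfl]
        simp

lemma int_supp (f : ℝ → ℝ) (a b c d : ℝ) (hca : c ≤ a) (hbd : b ≤ d)
    (hf : ∀ u v : ℝ, 0 < u → 0 < v → IntervalIntegrable f volume u v) (hc : 0 < c) (hab : a ≤ b)
    (h1 : ∀ y ≤ a, f y = 0) (h2 : ∀ y ≥ b, f y = 0) :
    ∫ y in c..d, f y = ∫ y in a..b, f y := by
  have ha : 0 < a := lt_of_lt_of_le hc hca
  have hb : 0 < b := lt_of_lt_of_le ha hab
  have hd : 0 < d := lt_of_lt_of_le hb hbd
  rw [← intervalIntegral.integral_add_adjacent_intervals (hf c a hc ha) (hf a d ha hd),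
    ← intervalIntegral.integral_add_adjacent_intervals (hf a b ha hb) (hf b d hb hd)]
  have e1 : ∫ y in c..a, f y = 0 := by
    rw [intervalIntegral.integral_congr (g := fun _ => (0 : ℝ))]
    · simp
    · intro y hy
      rw [uIcc_of_le hca] at hy
      exact h1 y hy.2
  have e2 : ∫ y in b..d, f y = 0 := by
    rw [intervalIntegral.integral_congr (g := fun _ => (0 : ℝ))]
    · simp
    · intro y hy
      rw [uIcc_of_le hbd] at hy
      exact h2 y hy.1
  rw [e1, e2]
  ring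

lemma tau_lim (g μ : ℝ → ℝ → ℝ) (hg : ∀ T, Continuous (g T)) (hμ : ∀ T, Continuous (μ T))
    (hgμ : ∀ T y, |g T y| ≤ μ T y) (C1 : ℝ) (hC1 : 0 ≤ C1)
    (A0 : ∀ V : ℝ, 0 < V → ∀ᶠ T in atTop, ∫ y in V..(2 * V), μ T y ≤ C1 * V)
    (hS : ∀ n, Sm g (wn n)) (τ : ℝ → ℝ) (hτ : Continuous τ) (h1 : ∀ y ≤ 1 / 2, τ y = 0)
    (h2 : ∀ y ≥ 3, τ y = 0) (ε : ℝ) (hε : 0 < ε) :
    ∀ᶠ T in atTop, |∫ y in (1 / 4 : ℝ)..4, τ y * g T y| ≤ ε := by
  have h0 : ∀ T y, 0 ≤ μ T y := fun T y => (abs_nonneg _).trans (hgμ T y)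
  obtain ⟨F, hF, hFτ⟩ := weier τ hτ h1 h2
  set δ := ε / (3 * (3 * C1 + 1)) with hδ
  have hδp : 0 < δ := by positivity
  obtain ⟨r, hr⟩ := exists_polynomial_near_of_continuousOn 0 1 F hF.continuousOn δ hδp
  obtain ⟨D, hD, hDm⟩ := Sm_poly g hg hS r
  obtain ⟨j, hj⟩ := exists_pow_lt_of_lt_one (show 0 < ε / (3 * (D + 1)) by positivity)
    (show (1 / 2 : ℝ) < 1 by norm_num)
  set m := 2 + j with hm
  have hmj : D * (1 / 2 : ℝ) ^ m ≤ ε / 3 := by
    have h3 : (1 / 2 : ℝ) ^ m ≤ (1 / 2) ^ j := pow_le_pow_of_le_one (by norm_num) (by norm_num) (by omega)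
    have h4 : (1 / 2 : ℝ) ^ m ≤ ε / (3 * (D + 1)) := h3.trans hj.le
    calc D * (1 / 2 : ℝ) ^ m ≤ D * (ε / (3 * (D + 1))) := mul_le_mul_of_nonneg_left h4 hD
      _ ≤ ε / 3 := by
        rw [← mul_div_assoc, div_le_div_iff₀ (by positivity) (by norm_num)]
        nlinarith
  have p1 : (0 : ℝ) < (1 / 2) ^ m := by positivity
  have p2 : (0 : ℝ) < 2 ^ m := by positivity
  have q1 : (1 / 2 : ℝ) ^ m ≤ 1 / 4 := by
    calc (1 / 2 : ℝ) ^ m ≤ (1 / 2) ^ 2 := pow_le_pow_of_le_one (by norm_num) (by norm_num) (by omega)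
      _ = 1 / 4 := by norm_num
  have q2 : (4 : ℝ) ≤ 2 ^ m := by
    calc (4 : ℝ) = 2 ^ 2 := by norm_num
      _ ≤ 2 ^ m := pow_le_pow_right₀ (by norm_num) (by omega)
  have ht := tail μ C1 1 1 (by norm_num) (by norm_num) hμ h0 A0 (wn 1) (wn_cont 1)
    (fun y hy => by
      unfold wn
      rw [div_le_one (by positivity)]
      have := Real.add_one_le_exp (-((1 : ℕ) * y ^ 2))
      push_cast at this ⊢
      linarith)
    (fun y hy => by
      unfold wn
      apply div_le_div_of_nonneg_right _ (by positivity)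
      linarith [Real.exp_pos (-((1 : ℕ) * y ^ 2))]) 0 m
  filter_upwards [hDm m (ε / 3) (by positivity), ht] with T a1 a2
  have a2' : ∫ y in ((1 / 2 : ℝ) ^ m)..(2 ^ m), wn 1 y * μ T y ≤ 3 * C1 := by
    refine (le_of_eq ?_).trans (a2.trans ?_)
    · rw [zero_add]
    · simp only [pow_zero, intervalIntegral.integral_same, zero_add]
      have : 0 ≤ C1 * (1 / 2) ^ m := by positivity
      nlinarith
  have e0 : ∫ y in (1 / 4 : ℝ)..4, τ y * g T y = ∫ y in ((1 / 2 : ℝ) ^ m)..(2 ^ m), τ y * g T y := by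
    symm
    apply int_supp _ _ _ _ _ q1 q2 _ p1 (by norm_num)
    · intro y hy
      rw [h1 y (by linarith), zero_mul]
    · intro y hy
      rw [h2 y (by linarith), zero_mul]
    · intro u v _ _
      exact (hτ.mul (hg T)).intervalIntegrable _ _
  have e1 : ∫ y in ((1 / 2 : ℝ) ^ m)..(2 ^ m), τ y * g T y =
      (∫ y in ((1 / 2 : ℝ) ^ m)..(2 ^ m), wp r y * g T y) +
        ∫ y in ((1 / 2 : ℝ) ^ m)..(2 ^ m), (τ y - wp r y) * g T y := by
    have i1 : IntervalIntegrable (fun y => wp r y * g T y) volume ((1 / 2 : ℝ) ^ m) (2 ^ m) :=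
      ii _ _ _ _ p1 p2 (wp_cont r) (hg T)
    have i2 : IntervalIntegrable (fun y => (τ y - wp r y) * g T y) volume ((1 / 2 : ℝ) ^ m) (2 ^ m) :=
      ii _ _ _ _ p1 p2 (hτ.continuousOn.sub (wp_cont r)) (hg T)
    rw [← intervalIntegral.integral_add i1 i2]
    congr 1
    ext y
    ring
  have e2 : |∫ y in ((1 / 2 : ℝ) ^ m)..(2 ^ m), (τ y - wp r y) * g T y| ≤
      δ * ∫ y in ((1 / 2 : ℝ) ^ m)..(2 ^ m), wn 1 y * μ T y := by
    rw [← intervalIntegral.integral_const_mul, ← Real.norm_eq_abs]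
    apply intervalIntegral.norm_integral_le_of_norm_le (I_le m)
    · refine Eventually.of_forall fun y hy => ?_
      have hy0 : 0 < y := lt_trans p1 hy.1
      rw [Real.norm_eq_abs, abs_mul, ← mul_assoc]
      apply mul_le_mul _ (hgμ T y) (abs_nonneg _)
      · have hw : 0 ≤ wn 1 y := by
          unfold wn
          apply div_nonneg _ (by positivity)
          have : Real.exp (-((1 : ℕ) * y ^ 2)) ≤ Real.exp 0 := Real.exp_le_exp.2 (by push_cast; nlinarith [sq_nonneg y])
          rw [Real.exp_zero] at this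
          linarith
        positivity
      · have hz : Real.exp (-y ^ 2) ∈ Icc (0 : ℝ) 1 := by
          refine ⟨(Real.exp_pos _).le, ?_⟩
          rw [← Real.exp_zero]
          exact Real.exp_le_exp.2 (by nlinarith [sq_nonneg y])
        have e3 : τ y - wp r y = wn 1 y * (-(r.eval (Real.exp (-y ^ 2)) - F (Real.exp (-y ^ 2)))) := by
          rw [hFτ y hy0]
          unfold wp wn
          rw [Nat.cast_one, one_mul]
          ring
        have hw : 0 ≤ wn 1 y := by
          unfold wn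
          apply div_nonneg _ (by positivity)
          rw [Nat.cast_one, one_mul]
          linarith [hz.2]
        rw [e3, abs_mul, abs_neg, abs_of_nonneg hw, mul_comm δ]
        exact mul_le_mul_of_nonneg_left (hr _ hz).le hw
    · exact (ii _ _ _ _ p1 p2 (wn_cont 1) (hμ T)).const_mul _
  rw [e0, e1]
  refine (abs_add_le _ _).trans ?_
  have e4 := e2.trans (mul_le_mul_of_nonneg_left a2' hδp.le)
  have e5 : δ * (3 * C1) ≤ ε / 3 := by
    rw [hδ, div_mul_eq_mul_div, div_le_div_iff₀ (by positivity) (by norm_num)]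
    nlinarith
  linarith

/-- trapezoid -/
noncomputable def tr (a b δ y : ℝ) : ℝ := max 0 (min 1 (min ((y - a) / δ) ((b - y) / δ)))

lemma tr_cont (a b δ : ℝ) : Continuous (tr a b δ) := by
  unfold tr; fun_prop

lemma tr_nonneg (a b δ y : ℝ) : 0 ≤ tr a b δ y := le_max_left _ _

lemma tr_le (a b δ y : ℝ) : tr a b δ y ≤ 1 := max_le zero_le_one (min_le_left _ _)

lemma tr_left (a b δ y : ℝ) (hδ : 0 < δ) (hy : y ≤ a) : tr a b δ y = 0 := by
  unfold tr
  apply max_eq_left
  refine (min_le_right _ _).trans ((min_le_left _ _).trans ?_)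
  exact div_nonpos_of_nonpos_of_nonneg (by linarith) hδ.le

lemma tr_right (a b δ y : ℝ) (hδ : 0 < δ) (hy : b ≤ y) : tr a b δ y = 0 := by
  unfold tr
  apply max_eq_left
  refine (min_le_right _ _).trans ((min_le_right _ _).trans ?_)
  exact div_nonpos_of_nonpos_of_nonneg (by linarith) hδ.le

lemma tr_one (a b δ y : ℝ) (hδ : 0 < δ) (h1 : a + δ ≤ y) (h2 : y ≤ b - δ) : tr a b δ y = 1 := by
  unfold tr
  have e1 : 1 ≤ (y - a) / δ := by rw [le_div_iff₀ hδ]; linarith
  have e2 : 1 ≤ (b - y) / δ := by rw [le_div_iff₀ hδ]; linarith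
  rw [min_eq_left (le_min e1 e2), max_eq_right zero_le_one]

end Pool.Agent.L5helper66.PVT
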