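import Pool.Agent.L5helper66.PVTau3

/-! Tauberian step (helper66, for helper12's `tauber`): the theorem, given the two bounds for the
integral of `(2 - 2 cos t) / t ^ 2`. -/

set_option autoImplicit false

open Filter Topology Set MeasureTheory

namespace Pool.Agent.L5helper66.PVT

theorem tauber_of (hup : ∀ a b : ℝ, 0 < a → a ≤ b →
      ∫ t in a..b, (2 - 2 * Real.cos t) / t ^ 2 ≤ Real.pi)
    (hlo : ∀ a b : ℝ, 0 < a → a ≤ b →
      Real.pi - a - 4 / b ≤ ∫ t in a..b, (2 - 2 * Real.cos t) / t ^ 2)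
    (ν : ℝ → ℝ → ℝ) (ρ C0 : ℝ) (hρ : 0 ≤ ρ) (hC0 : 0 ≤ C0) (hc : ∀ T, Continuous (ν T))
    (h0 : ∀ T y, 0 ≤ ν T y)
    (A0 : ∀ V : ℝ, 0 < V → ∀ᶠ T in atTop, ∫ y in V..(2 * V), ν T y ≤ C0 * V)
    (Aup : ∀ X : ℝ, 0 < X → ∀ y0 y1 : ℝ, 0 < y0 → y0 ≤ y1 → ∀ ε : ℝ, 0 < ε → ∀ᶠ T in atTop,
      ∫ y in y0..y1, (2 - 2 * Real.cos (X * y)) / y ^ 2 * ν T y ≤ X * (Real.pi * ρ + ε))
    (Alow : ∀ ε : ℝ, 0 < ε → ∃ a b : ℝ, 0 < a ∧ a ≤ b ∧ ∀ X : ℝ, 0 < X → ∀ᶠ T in atTop,
      X * (Real.pi * ρ - ε) ≤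
        ∫ y in (a / X)..(b / X), (2 - 2 * Real.cos (X * y)) / y ^ 2 * ν T y) :
    Tendsto (fun T => ∫ y in (1 : ℝ)..2, ν T y) atTop (𝓝 ρ) := by
  set g : ℝ → ℝ → ℝ := fun T y => ν T y - ρ with hg
  set μ : ℝ → ℝ → ℝ := fun T y => ν T y + ρ with hμ
  have gc : ∀ T, Continuous (g T) := fun T => (hc T).sub continuous_const
  have μc : ∀ T, Continuous (μ T) := fun T => (hc T).add continuous_const
  have gμ : ∀ T y, |g T y| ≤ μ T y := by
    intro T y
    simp only [hg, hμ]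
    have := h0 T y
    exact abs_le.2 ⟨by linarith, by linarith⟩
  have hC1 : 0 ≤ C0 + ρ := by positivity
  have A1 : ∀ V : ℝ, 0 < V → ∀ᶠ T in atTop, ∫ y in V..(2 * V), μ T y ≤ (C0 + ρ) * V := by
    intro V hV
    filter_upwards [A0 V hV] with T hT
    simp only [hμ]
    rw [intervalIntegral.integral_add ((hc T).intervalIntegrable _ _)
      (continuous_const.intervalIntegrable _ _), intervalIntegral.integral_const, smul_eq_mul]
    linarith
  have HB : ∀ (x : ℝ) (m : ℕ) (ε : ℝ), 0 < ε → ∀ᶠ T in atTop,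
      |∫ y in ((1 / 2 : ℝ) ^ m)..(2 ^ m), K x y * g T y| ≤
        ε + (C0 + ρ) * (x ^ 2 + 8) * (1 / 2) ^ m :=
    fun x m ε hε => H_bound hup hlo ν ρ C0 hρ hC0 hc h0 A0 Aup Alow x m ε hε
  have hS : ∀ n, Sm g (wn n) := fun n => avg g μ gc μc gμ (C0 + ρ) hC1 A1 HB n
  have key := tau_lim g μ gc μc gμ (C0 + ρ) hC1 A1 hS
  have hsp : ∀ (τ : ℝ → ℝ), Continuous τ → ∀ T, ∫ y in (1 / 4 : ℝ)..4, τ y * g T y =
      (∫ y in (1 / 4 : ℝ)..4, τ y * ν T y) - ρ * ∫ y in (1 / 4 : ℝ)..4, τ y := by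
    intro τ hτ T
    exact split_int τ (ν T) ρ _ _ (by norm_num) (by norm_num) hτ.continuousOn (hc T)
  rw [Metric.tendsto_nhds]
  intro ε hε
  set δ := min (1 / 4) (ε / (8 * (ρ + 1))) with hδ
  have hδp : 0 < δ := lt_min (by norm_num) (by positivity)
  have hδ4 : δ ≤ 1 / 4 := min_le_left _ _
  have hδρ : ρ * (2 * δ) ≤ ε / 4 := by
    have h1 : δ ≤ ε / (8 * (ρ + 1)) := min_le_right _ _
    calc ρ * (2 * δ) ≤ ρ * (2 * (ε / (8 * (ρ + 1)))) := by gcongr
      _ ≤ ε / 4 := by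
        rw [← mul_div_assoc, ← mul_div_assoc, div_le_div_iff₀ (by positivity) (by norm_num)]
        nlinarith
  have kp := key (tr (1 - δ) (2 + δ) δ) (tr_cont _ _ _)
    (fun y hy => tr_left _ _ _ _ hδp (by linarith)) (fun y hy => tr_right _ _ _ _ hδp (by linarith))
    (ε / 4) (by positivity)
  have km := key (tr 1 2 δ) (tr_cont _ _ _)
    (fun y hy => tr_left _ _ _ _ hδp (by linarith)) (fun y hy => tr_right _ _ _ _ hδp (by linarith))
    (ε / 4) (by positivity)
  have ip : ∫ y in (1 / 4 : ℝ)..4, tr (1 - δ) (2 + δ) δ y ≤ 1 + 2 * δ := by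
    rw [int_supp _ (1 - δ) (2 + δ) _ _ (by linarith) (by linarith)
      (fun _ _ _ _ => (tr_cont _ _ _).intervalIntegrable _ _) (by norm_num) (by linarith)
      (fun y hy => tr_left _ _ _ _ hδp hy) (fun y hy => tr_right _ _ _ _ hδp hy)]
    calc ∫ y in (1 - δ)..(2 + δ), tr (1 - δ) (2 + δ) δ y ≤ ∫ _ in (1 - δ)..(2 + δ), (1 : ℝ) := by
          apply intervalIntegral.integral_mono_on (by linarith)
            ((tr_cont _ _ _).intervalIntegrable _ _) (continuous_const.intervalIntegrable _ _)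
          intro y _
          exact tr_le _ _ _ _
      _ = 1 + 2 * δ := by simp; ring
  have im : 1 - 2 * δ ≤ ∫ y in (1 / 4 : ℝ)..4, tr 1 2 δ y := by
    calc 1 - 2 * δ = ∫ y in (1 + δ)..(2 - δ), tr 1 2 δ y := by
          rw [intervalIntegral.integral_congr (g := fun _ => (1 : ℝ))]
          · simp; ring
          · intro y hy
            rw [uIcc_of_le (by linarith)] at hy
            exact tr_one _ _ _ _ hδp hy.1 hy.2
      _ ≤ _ := by
          apply intervalIntegral.integral_mono_interval (by linarith) (by linarith) (by linarith)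
          · exact Eventually.of_forall fun y => tr_nonneg _ _ _ _
          · exact (tr_cont _ _ _).intervalIntegrable _ _
  filter_upwards [kp, km] with T k1 k2
  rw [hsp _ (tr_cont _ _ _) T] at k1 k2
  have u1 : ∫ y in (1 : ℝ)..2, ν T y ≤ ∫ y in (1 / 4 : ℝ)..4, tr (1 - δ) (2 + δ) δ y * ν T y := by
    calc ∫ y in (1 : ℝ)..2, ν T y = ∫ y in (1 : ℝ)..2, tr (1 - δ) (2 + δ) δ y * ν T y := by
          apply intervalIntegral.integral_congr
          intro y hy
          rw [uIcc_of_le (by norm_num)] at hy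
          simp only
          rw [tr_one _ _ _ _ hδp (by linarith [hy.1]) (by linarith [hy.2]), one_mul]
      _ ≤ _ := by
          apply intervalIntegral.integral_mono_interval (by norm_num) (by norm_num) (by norm_num)
          · exact Eventually.of_forall fun y => mul_nonneg (tr_nonneg _ _ _ _) (h0 T y)
          · exact ((tr_cont _ _ _).mul (hc T)).intervalIntegrable _ _
  have u2 : ∫ y in (1 / 4 : ℝ)..4, tr 1 2 δ y * ν T y ≤ ∫ y in (1 : ℝ)..2, ν T y := by
    rw [int_supp (fun y => tr 1 2 δ y * ν T y) 1 2 (1 / 4) 4 (by norm_num) (by norm_num)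
      (fun _ _ _ _ => ((tr_cont _ _ _).mul (hc T)).intervalIntegrable _ _) (by norm_num)
      (by norm_num) (fun y hy => by simp only [tr_left _ _ _ _ hδp hy, zero_mul])
      (fun y hy => by simp only [tr_right _ _ _ _ hδp hy, zero_mul])]
    apply intervalIntegral.integral_mono_on (by norm_num)
      (((tr_cont _ _ _).mul (hc T)).intervalIntegrable _ _) ((hc T).intervalIntegrable _ _)
    intro y _
    calc tr 1 2 δ y * ν T y ≤ 1 * ν T y := mul_le_mul_of_nonneg_right (tr_le _ _ _ _) (h0 T y)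
      _ = ν T y := one_mul _
  have k1' := (abs_le.1 k1).2
  have k2' := (abs_le.1 k2).1
  have v1 := mul_le_mul_of_nonneg_left ip hρ
  have v2 := mul_le_mul_of_nonneg_left im hρ
  rw [Real.dist_eq, abs_lt]
  constructor
  · nlinarith
  · nlinarith

end Pool.Agent.L5helper66.PVT
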