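import Pool.Agent.L5helper12.PV.Stm2
import Pool.Agent.L5helper66.PVPrime

/-! The averaged bound of the transform of the density, from the averaged bound on the side of the primes. -/

set_option autoImplicit false

open Filter Topology Set MeasureTheory H370

namespace Pool.Agent.L5helper66.PVP

open Pool.Agent.L5helper12.PV
open Pool.Agent.L5helper10.TV hiding GG
open scoped ENNReal

/-- the change of variables `x = κ T` -/
lemma lint_scale (T X Q : ℝ) (hT : 0 < T) (f : ℝ → ℝ≥0∞) :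
    ∫⁻ x in Ioo X Q, f (x / T) = ENNReal.ofReal T * ∫⁻ κ in Ioo (X / T) (Q / T), f κ := by
  have himg : (fun κ : ℝ => κ * T) '' Ioo (X / T) (Q / T) = Ioo X Q := by
    ext y
    simp only [Set.mem_image, Set.mem_Ioo]
    constructor
    · rintro ⟨x, ⟨hx1, hx2⟩, rfl⟩
      exact ⟨by rwa [div_lt_iff₀ hT] at hx1, by rwa [lt_div_iff₀ hT] at hx2⟩
    · rintro ⟨h1, h2⟩
      exact ⟨y / T, ⟨div_lt_div_of_pos_right h1 hT, div_lt_div_of_pos_right h2 hT⟩, by field_simp⟩
  rw [← himg, lintegral_image_eq_lintegral_abs_deriv_mul (f := fun κ : ℝ => κ * T)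
    (f' := fun _ => T) measurableSet_Ioo
    (fun α _ => by simpa using ((hasDerivAt_id α).mul_const T).hasDerivWithinAt)
    (fun x _ y _ h => mul_right_cancel₀ hT.ne' h), ← lintegral_const_mul' _ _ ENNReal.ofReal_ne_top]
  congr 1
  funext κ
  rw [abs_of_pos hT, mul_div_cancel_right₀ _ hT.ne']

lemma avg_x (hA : AvgStmt) (K : ℝ → ℝ) (hK : Continuous K) (hK0 : ∀ α, 0 ≤ K α) (ℓ : ℕ) (hℓ : 1 ≤ ℓ)
    (hKs : ∀ α, (ℓ : ℝ) ≤ α → K α = 0) (B : ℝ) (hKB : ∀ α, K α ≤ B) (X Q ε : ℝ) (hX : 0 < X) (hXQ : X < Q)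
    (hε : 0 < ε) : ∀ᶠ T in atTop,
    ∫⁻ x in Ioo X Q, ENNReal.ofReal (x⁻¹ ^ 3 * (T / Real.log T ^ 2 * ∫ v, fk (x / T) v ^ 2 * K (v / Real.log T))) ≤
      ENNReal.ofReal ((1 / X) * ((∫ α in (0 : ℝ)..ℓ, K α * min α 1) + ε)) := by
  filter_upwards [hA K hK hK0 ℓ hℓ hKs B hKB X Q ε hX hXQ hε, eventually_gt_atTop 1] with T h hT
  have hT0 : 0 < T := by linarith
  have hL0 : 0 < Real.log T := Real.log_pos hT
  set F : ℝ → ℝ≥0∞ := fun κ => ENNReal.ofReal (κ⁻¹ ^ 3 * ∫ v, fk κ v ^ 2 * K (v / Real.log T)) with hF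
  have e1 : ∀ x : ℝ, ENNReal.ofReal (x⁻¹ ^ 3 * (T / Real.log T ^ 2 * ∫ v, fk (x / T) v ^ 2 * K (v / Real.log T))) =
      ENNReal.ofReal (1 / (T ^ 2 * Real.log T ^ 2)) * F (x / T) := by
    intro x
    rw [hF]
    simp only
    rw [← ENNReal.ofReal_mul (by positivity)]
    congr 1
    rw [inv_div]
    rcases eq_or_ne x 0 with hx | hx
    · rw [hx]; simp
    · field_simp
  simp only [e1]
  rw [lintegral_const_mul' _ _ ENNReal.ofReal_ne_top, lint_scale T X Q hT0 F, ← mul_assoc,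
    ← ENNReal.ofReal_mul (by positivity)]
  refine (mul_le_mul_right h _).trans (le_of_eq ?_)
  rw [← ENNReal.ofReal_mul (by positivity)]
  congr 1
  field_simp

theorem core (hA : AvgStmt) (hP : PupStmt) {k : ℝ → ℝ} {ℓ : ℕ} {C B : ℝ} (h : KW k ℓ C B) (a δ : ℝ) (N : ℕ)
    (ha : 0 < a) (hδ : 0 < δ) (hδa : δ ≤ a / 2) (X Q : ℝ) (hX : 0 < X) (hXQ : X < Q) (ε : ℝ) (hε : 0 < ε) :
    ∀ᶠ T in atTop, ∀ (H : ℝ → ℝ) (E : ℝ), 0 ≤ E → (∀ x ∈ Icc X Q, 0 ≤ H x) → ContinuousOn H (Icc X Q) →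
      (∀ x ∈ Icc X Q, H x ≤ (∫ y in (a / x)..(xj a δ N / x), (qf x y - 5 * δ) / y ^ 2 * NU k ℓ T y) + E) →
      (1 - 2 * δ / a) * ∫ x in X..Q, x⁻¹ ^ 3 * H x ≤
        (1 / X) * (TT a δ N * k 0 + 2 * Real.pi * Jm k ℓ + ε) + E * ((Q - X) / X ^ 3) := by
  have hpi := Real.pi_pos
  have hk0 := h.nn 0
  have hJ := Jm_nonneg h
  have hQ : 0 < Q := hX.trans hXQ
  obtain ⟨η, hη0, hη1, hη⟩ := small_ev (fun η => η + 2 * Real.pi * (1 + η) * (Jm k ℓ + η * (ℓ + 3))) (by fun_prop) ε hε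
  simp only [zero_mul, add_zero, zero_add, mul_one] at hη
  obtain ⟨c, hc0, hc1, hc⟩ := hP k ℓ C B h a δ N ha hδ hδa η hη0
  have hKt0 : ∀ α, 0 ≤ Kt k ℓ c α := fun α => by
    unfold Kt
    have h1 := h.nn α
    have h2 : 0 ≤ min 1 (max 0 (((ℓ + 2 : ℕ) : ℝ) - α)) := le_min zero_le_one (le_max_left _ _)
    positivity
  have hKts : ∀ α, ((ℓ + 2 : ℕ) : ℝ) ≤ α → Kt k ℓ c α = 0 := fun α hα => by
    unfold Kt
    rw [h.supp α (by push_cast at hα; linarith), max_eq_left (by linarith), min_eq_right zero_le_one, mul_zero,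
      add_zero]
  have hKtB : ∀ α, Kt k ℓ c α ≤ B + c := fun α => by
    unfold Kt
    have h1 := h.bd α
    have h2 : min 1 (max 0 (((ℓ + 2 : ℕ) : ℝ) - α)) ≤ 1 := min_le_left _ _
    have := mul_le_mul_of_nonneg_left h2 hc0
    linarith
  have hKtc := Kt_cont h c
  have hKti := Kt_int h c hc0
  have hTT := TT_nonneg a δ N ha hδ
  have hd : 0 ≤ 1 - 2 * δ / a := by
    rw [sub_nonneg, div_le_one ha]; linarith
  filter_upwards [hc X Q hX hXQ, avg_x hA (Kt k ℓ c) hKtc hKt0 (ℓ + 2) (by omega) hKts (B + c) hKtB X Q η hX hXQ hη0,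
    eventually_gt_atTop 1] with T t1 t2 hT H E hE hH0 hHc hHle
  have hT0 : 0 < T := by linarith
  have hL0 : 0 < Real.log T := Real.log_pos hT
  set G : ℝ → ℝ := fun x => T / Real.log T ^ 2 * ∫ v, fk (x / T) v ^ 2 * Kt k ℓ c (v / Real.log T) with hG
  have hG0 : ∀ x, 0 ≤ G x := fun x => by
    rw [hG]
    have : 0 ≤ ∫ v, fk (x / T) v ^ 2 * Kt k ℓ c (v / Real.log T) :=
      integral_nonneg fun v => mul_nonneg (sq_nonneg _) (hKt0 _)
    positivity
  set M : ℝ := TT a δ N * k 0 + η with hM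
  have hM0 : 0 ≤ M := by positivity
  set c2 : ℝ := 2 * Real.pi * (1 + η) with hc2
  have hc20 : 0 < c2 := by positivity
  -- pointwise
  have hpt : ∀ x ∈ Ioo X Q, ENNReal.ofReal ((1 - 2 * δ / a) * (x⁻¹ ^ 3 * H x)) ≤
      ENNReal.ofReal (M * x⁻¹ ^ 2 + E * (1 / X ^ 3)) + ENNReal.ofReal c2 * ENNReal.ofReal (x⁻¹ ^ 3 * G x) := by
    intro x hx
    have hx' : x ∈ Icc X Q := ⟨hx.1.le, hx.2.le⟩
    have hx0 : 0 < x := hX.trans hx.1
    have h1 := hHle x hx'
    have h2 := t1 x hx'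
    rw [← ENNReal.ofReal_mul hc20.le, ← ENNReal.ofReal_add (by positivity)
      (mul_nonneg hc20.le (mul_nonneg (by positivity) (hG0 x)))]
    apply ENNReal.ofReal_le_ofReal
    have h3 : (1 - 2 * δ / a) * H x ≤ x * M + c2 * G x + E := by
      have := mul_le_mul_of_nonneg_left h1 hd
      have h4 : (1 - 2 * δ / a) * E ≤ 1 * E := by
        apply mul_le_mul_of_nonneg_right _ hE
        have : 0 ≤ 2 * δ / a := by positivity
        linarith
      rw [mul_add] at this
      linarith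
    have h5 : x⁻¹ ^ 3 ≤ 1 / X ^ 3 := by
      rw [inv_pow, one_div]
      apply inv_anti₀ (by positivity)
      exact pow_le_pow_left₀ hX.le hx.1.le 3
    calc (1 - 2 * δ / a) * (x⁻¹ ^ 3 * H x) = x⁻¹ ^ 3 * ((1 - 2 * δ / a) * H x) := by ring
      _ ≤ x⁻¹ ^ 3 * (x * M + c2 * G x + E) := mul_le_mul_of_nonneg_left h3 (by positivity)
      _ = M * x⁻¹ ^ 2 + E * x⁻¹ ^ 3 + c2 * (x⁻¹ ^ 3 * G x) := by
        field_simp
        ring
      _ ≤ M * x⁻¹ ^ 2 + E * (1 / X ^ 3) + c2 * (x⁻¹ ^ 3 * G x) := by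
        have := mul_le_mul_of_nonneg_left h5 hE
        linarith
  have hcontI : ContinuousOn (fun x : ℝ => x⁻¹) (Icc X Q) := by
    apply ContinuousOn.inv₀ continuousOn_id
    intro x hx
    exact (hX.trans_le hx.1).ne'
  have hcontH : ContinuousOn (fun x => (1 - 2 * δ / a) * (x⁻¹ ^ 3 * H x)) (Icc X Q) :=
    continuousOn_const.mul ((hcontI.pow 3).mul hHc)
  have hcontM : ContinuousOn (fun x => M * x⁻¹ ^ 2 + E * (1 / X ^ 3)) (Icc X Q) :=
    (continuousOn_const.mul (hcontI.pow 2)).add continuousOn_const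
  have conv : ∀ f : ℝ → ℝ, ContinuousOn f (Icc X Q) → (∀ x ∈ Icc X Q, 0 ≤ f x) →
      ∫⁻ x in Ioo X Q, ENNReal.ofReal (f x) = ENNReal.ofReal (∫ x in X..Q, f x) := by
    intro f hf hf0
    have hi : IntegrableOn f (Ioc X Q) := (hf.integrableOn_Icc).mono_set Ioc_subset_Icc_self
    rw [intervalIntegral.integral_of_le hXQ.le, ofReal_integral_eq_lintegral_ofReal hi
      (ae_restrict_of_forall_mem measurableSet_Ioc fun x hx => hf0 x (Ioc_subset_Icc_self hx))]
    exact (restrict_Ioo_eq_restrict_Ioc (μ := volume) (a := X) (b := Q)) ▸ rfl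
  have hl := setLIntegral_mono' (μ := volume) measurableSet_Ioo hpt
  rw [conv _ hcontH (fun x hx => mul_nonneg hd (mul_nonneg (pow_nonneg (inv_nonneg.2 (hX.le.trans hx.1)) 3)
    (hH0 x hx)))] at hl
  have hmeas : Measurable (fun x : ℝ => ENNReal.ofReal (M * x⁻¹ ^ 2 + E * (1 / X ^ 3))) := by fun_prop
  rw [lintegral_add_left hmeas, conv _ hcontM (fun x hx => by
    have : 0 < x := hX.trans_le hx.1
    positivity), lintegral_const_mul' _ _ ENNReal.ofReal_ne_top] at hl
  have hinv : ∫ x in X..Q, x⁻¹ ^ 2 = 1 / X - 1 / Q := by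
    have h := intervalIntegral.integral_eq_sub_of_hasDerivAt (f := fun κ : ℝ => -κ⁻¹)
      (f' := fun κ : ℝ => κ⁻¹ ^ 2) (a := X) (b := Q) ?_ ?_
    · rw [h]; field_simp; ring
    · intro x hx
      rw [uIcc_of_le hXQ.le] at hx
      have hx0 : x ≠ 0 := (hX.trans_le hx.1).ne'
      refine ((hasDerivAt_inv hx0).neg).congr_deriv ?_
      field_simp
    · apply ContinuousOn.intervalIntegrable
      rw [uIcc_of_le hXQ.le]
      exact hcontI.pow 2
  have hA1 : ∫ x in X..Q, (M * x⁻¹ ^ 2 + E * (1 / X ^ 3)) ≤ M * (1 / X) + E * ((Q - X) / X ^ 3) := by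
    rw [intervalIntegral.integral_add, intervalIntegral.integral_const_mul, hinv, intervalIntegral.integral_const,
      smul_eq_mul]
    · have : M * (1 / X - 1 / Q) ≤ M * (1 / X) := by
        apply mul_le_mul_of_nonneg_left _ hM0
        have : 0 < 1 / Q := by positivity
        linarith
      have e : (Q - X) * (E * (1 / X ^ 3)) = E * ((Q - X) / X ^ 3) := by ring
      linarith
    · apply ContinuousOn.intervalIntegrable
      rw [uIcc_of_le hXQ.le]
      exact continuousOn_const.mul (hcontI.pow 2)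
    · simp
  have hQX : 0 ≤ Q - X := by linarith
  have hsum : ENNReal.ofReal (∫ x in X..Q, (1 - 2 * δ / a) * (x⁻¹ ^ 3 * H x)) ≤
      ENNReal.ofReal (M * (1 / X) + E * ((Q - X) / X ^ 3) + c2 * ((1 / X) * (Jm k ℓ + η * (ℓ + 3)))) := by
    refine hl.trans ?_
    have hJ2 : (∫ α in (0 : ℝ)..((ℓ + 2 : ℕ) : ℝ), Kt k ℓ c α * min α 1) + η ≤ Jm k ℓ + η * (ℓ + 3) := by
      have : c * (ℓ + 2) ≤ η * (ℓ + 2) := mul_le_mul_of_nonneg_right hc1 (by positivity)
      linarith
    have t3 : ∫⁻ x in Ioo X Q, ENNReal.ofReal (x⁻¹ ^ 3 * G x) ≤ ENNReal.ofReal ((1 / X) * (Jm k ℓ + η * (ℓ + 3))) := by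
      refine t2.trans (ENNReal.ofReal_le_ofReal ?_)
      exact mul_le_mul_of_nonneg_left hJ2 (by positivity)
    rw [ENNReal.ofReal_add (by positivity) (by positivity), ENNReal.ofReal_mul hc20.le]
    exact add_le_add (ENNReal.ofReal_le_ofReal hA1) (mul_le_mul_right t3 _)
  rw [ENNReal.ofReal_le_ofReal_iff (by positivity), intervalIntegral.integral_const_mul] at hsum
  refine hsum.trans ?_
  have h9 : (1 / X) * (η + c2 * (Jm k ℓ + η * (ℓ + 3))) ≤ (1 / X) * (2 * Real.pi * Jm k ℓ + ε) :=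
    mul_le_mul_of_nonneg_left hη (by positivity)
  have h10 : M * (1 / X) + E * ((Q - X) / X ^ 3) + c2 * ((1 / X) * (Jm k ℓ + η * (ℓ + 3))) =
      (1 / X) * (TT a δ N * k 0) + (1 / X) * (η + c2 * (Jm k ℓ + η * (ℓ + 3))) + E * ((Q - X) / X ^ 3) := by
    rw [hM]; ring
  rw [h10]
  have h11 : (1 / X) * (TT a δ N * k 0 + 2 * Real.pi * Jm k ℓ + ε) =
      (1 / X) * (TT a δ N * k 0) + (1 / X) * (2 * Real.pi * Jm k ℓ + ε) := by ring
  rw [h11]
  linarith

theorem dyad (hA : AvgStmt) (hP : PupStmt) {k : ℝ → ℝ} {ℓ : ℕ} {C B : ℝ} (h : KW k ℓ C B) : ∃ C0 : ℝ, 0 ≤ C0 ∧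
    ∀ V : ℝ, 0 < V → ∀ᶠ T in atTop, ∫ y in V..(2 * V), NU k ℓ T y ≤ C0 * V := by
  set M := TT 1 (1 / 20) 40 * k 0 + 2 * Real.pi * Jm k ℓ with hM
  have hM0 : 0 ≤ M := by
    have h1 := TT_nonneg 1 (1 / 20) 40 one_pos (by norm_num)
    have h2 := h.nn 0
    have h3 := Jm_nonneg h
    have := Real.pi_pos
    positivity
  refine ⟨60 * (M + 1), by positivity, fun V hV => ?_⟩
  have hXQ : 1 / V < 3 / 2 / V := by
    apply div_lt_div_of_pos_right _ hV
    norm_num
  filter_upwards [core hA hP h 1 (1 / 20) 40 one_pos (by norm_num) (by norm_num) (1 / V) (3 / 2 / V) (by positivity) hXQ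
    1 one_pos] with T hT
  have hc := NU_cont h.cont ℓ T
  have hVV : V ≤ 2 * V := by linarith
  have hI0 : 0 ≤ ∫ y in V..(2 * V), NU k ℓ T y :=
    intervalIntegral.integral_nonneg hVV fun y _ => NU_nonneg h.nn _ _ _
  obtain ⟨I, hI⟩ : ∃ I, I = ∫ y in V..(2 * V), NU k ℓ T y := ⟨_, rfl⟩
  rw [← hI] at hI0 ⊢
  have hxj : xj 1 (1 / 20) 40 = 3 := by unfold xj; norm_num
  have hmain := hT (fun x => x ^ 3 * (I * V / 27)) 0 le_rfl
    (fun x hx => by
      have : 0 < x := lt_of_lt_of_le (by positivity) hx.1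
      positivity)
    (by fun_prop) (fun x hx => by
      have hx0 : 0 < x := lt_of_lt_of_le (by positivity) hx.1
      have hx1 : 1 ≤ x * V := by
        have := hx.1
        rwa [div_le_iff₀ hV] at this
      have hx2 : x * V ≤ 3 / 2 := by
        have := hx.2
        rwa [le_div_iff₀ hV] at this
      rw [hxj, add_zero]
      have r1 : 1 / x ≤ V := by rw [div_le_iff₀ hx0]; linarith
      have r2 : 2 * V ≤ 3 / x := by rw [le_div_iff₀ hx0]; linarith
      have hgood : ∀ y ∈ Icc (1 / x) (3 / x), 1 / 2 ≤ qf x y - 5 * (1 / 20) := by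
        intro y hy
        have g1 : 1 ≤ x * y := by
          have := hy.1
          rw [div_le_iff₀ hx0] at this; linarith
        have g2 : x * y ≤ 3 := by
          have := hy.2
          rw [le_div_iff₀ hx0] at this; linarith
        have g3 : Real.cos (x * y) ≤ Real.cos 1 := by
          apply Real.cos_le_cos_of_nonneg_of_le_pi zero_le_one _ g1
          linarith [Real.pi_gt_three]
        have g4 := Real.cos_one_le
        unfold qf; linarith
      have hfc : ContinuousOn (fun y => (qf x y - 5 * (1 / 20)) / y ^ 2 * NU k ℓ T y) (Icc (1 / x) (3 / x)) :=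
        (f_cont x (5 * (1 / 20)) (1 / x) (3 / x) (by positivity)).mul hc.continuousOn
      have h13 : 1 / x ≤ 3 / x := div_le_div_of_nonneg_right (by norm_num) hx0.le
      have s1 : ∫ y in V..(2 * V), 1 / (8 * V ^ 2) * NU k ℓ T y ≤
          ∫ y in V..(2 * V), (qf x y - 5 * (1 / 20)) / y ^ 2 * NU k ℓ T y := by
        apply intervalIntegral.integral_mono_on hVV
        · exact ((continuous_const.mul hc).intervalIntegrable _ _)
        · apply ContinuousOn.intervalIntegrable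
          rw [uIcc_of_le hVV]
          exact hfc.mono (Icc_subset_Icc r1 r2)
        · intro y hy
          have hy0 : 0 < y := lt_of_lt_of_le hV hy.1
          apply mul_le_mul_of_nonneg_right _ (NU_nonneg h.nn _ _ _)
          have g5 := hgood y ⟨r1.trans hy.1, hy.2.trans r2⟩
          rw [div_le_div_iff₀ (by positivity) (by positivity), one_mul]
          have g6 : y ^ 2 ≤ 4 * V ^ 2 := by
            have := hy.2
            nlinarith
          nlinarith
      have s2 : ∫ y in V..(2 * V), (qf x y - 5 * (1 / 20)) / y ^ 2 * NU k ℓ T y ≤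
          ∫ y in (1 / x)..(3 / x), (qf x y - 5 * (1 / 20)) / y ^ 2 * NU k ℓ T y := by
        apply intervalIntegral.integral_mono_interval r1 hVV r2
        · refine ae_restrict_of_forall_mem measurableSet_Ioc fun y hy => ?_
          have hy' := hgood y (Ioc_subset_Icc_self hy)
          have hy0 : 0 < y := lt_trans (by positivity) hy.1
          exact mul_nonneg (div_nonneg (by linarith) (by positivity)) (NU_nonneg h.nn _ _ _)
        · apply ContinuousOn.intervalIntegrable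
          rw [uIcc_of_le h13]
          exact hfc
      rw [intervalIntegral.integral_const_mul, ← hI] at s1
      refine le_trans ?_ (s1.trans s2)
      have s3 : x ^ 3 ≤ (3 / 2 / V) ^ 3 := pow_le_pow_left₀ hx0.le hx.2 3
      calc x ^ 3 * (I * V / 27) ≤ (3 / 2 / V) ^ 3 * (I * V / 27) := mul_le_mul_of_nonneg_right s3 (by positivity)
        _ = 1 / (8 * V ^ 2) * I := by field_simp; ring)
  rw [zero_mul, add_zero, ← hM] at hmain
  have e1 : ∫ x in (1 / V)..(3 / 2 / V), x⁻¹ ^ 3 * (x ^ 3 * (I * V / 27)) = (3 / 2 / V - 1 / V) * (I * V / 27) := by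
    rw [show (3 / 2 / V - 1 / V) * (I * V / 27) = ∫ _ in (1 / V)..(3 / 2 / V), I * V / 27 by
      rw [intervalIntegral.integral_const, smul_eq_mul]]
    apply intervalIntegral.integral_congr
    intro x hx
    rw [uIcc_of_le hXQ.le] at hx
    have hx0 : x ≠ 0 := (lt_of_lt_of_le (by positivity) hx.1).ne'
    simp only
    field_simp
  rw [e1] at hmain
  have e2 : (1 - 2 * (1 / 20) / 1 : ℝ) * ((3 / 2 / V - 1 / V) * (I * V / 27)) = I / 60 := by
    field_simp; ring
  rw [e2] at hmain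
  have e3 : (1 / (1 / V)) * (M + 1) = (M + 1) * V := by field_simp
  rw [e3] at hmain
  linarith

lemma dyadn (hA : AvgStmt) (hP : PupStmt) {k : ℝ → ℝ} {ℓ : ℕ} {C B : ℝ} (h : KW k ℓ C B) (y0 : ℝ) (hy0 : 0 < y0)
    (n : ℕ) : ∃ D : ℝ, 0 ≤ D ∧ ∀ᶠ T in atTop, ∫ y in y0..(2 ^ n * y0), NU k ℓ T y ≤ D := by
  obtain ⟨C0, hC0, hA⟩ := dyad hA hP h
  induction n with
  | zero => exact ⟨0, le_rfl, Eventually.of_forall fun T => by simp⟩
  | succ n ih =>
    obtain ⟨D, hD, hi⟩ := ih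
    refine ⟨D + C0 * (2 ^ n * y0), by positivity, ?_⟩
    filter_upwards [hi, hA (2 ^ n * y0) (by positivity)] with T t1 t2
    have hc := NU_cont h.cont ℓ T
    rw [← intervalIntegral.integral_add_adjacent_intervals (hc.intervalIntegrable y0 (2 ^ n * y0))
      (hc.intervalIntegrable (2 ^ n * y0) (2 ^ (n + 1) * y0))]
    have e1 : 2 * (2 ^ n * y0) = 2 ^ (n + 1) * y0 := by ring
    rw [e1] at t2
    linarith

lemma H_cont (ν : ℝ → ℝ) (hν : Continuous ν) (y0 y1 : ℝ) (hy0 : 0 < y0) (hy : y0 ≤ y1) :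
    Continuous (fun x : ℝ => ∫ y in y0..y1, qf x y / y ^ 2 * ν y) := by
  have e : (fun x : ℝ => ∫ y in y0..y1, qf x y / y ^ 2 * ν y) =
      fun x : ℝ => ∫ y in Icc y0 y1, qf x y / (max y y0) ^ 2 * ν y := by
    funext x
    rw [intervalIntegral.integral_of_le hy, ← integral_Icc_eq_integral_Ioc]
    apply setIntegral_congr_fun measurableSet_Icc
    intro y hy'
    simp only
    rw [max_eq_left hy'.1]
  rw [e]
  apply continuous_parametric_integral_of_continuous (f := fun x y => qf x y / (max y y0) ^ 2 * ν y) _ isCompact_Icc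
  have h1 : Continuous fun p : ℝ × ℝ => qf p.1 p.2 := by unfold qf; fun_prop
  have h2 : Continuous fun p : ℝ × ℝ => (max p.2 y0) ^ 2 := by fun_prop
  have h3 : ∀ p : ℝ × ℝ, (max p.2 y0) ^ 2 ≠ 0 := fun p => by
    have : 0 < max p.2 y0 := lt_max_of_lt_right hy0
    positivity
  exact (h1.div h2 h3).mul (hν.comp continuous_snd)

theorem tup (hA : AvgStmt) (hP : PupStmt) : TupStmt := by
  intro k ℓ C B h X Q hX hXQ y0 y1 hy0 hy ε hε
  have hpi := Real.pi_pos
  have hk0 := h.nn 0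
  have hJ := Jm_nonneg h
  have hQ : 0 < Q := hX.trans hXQ
  set z0 := X * y0 / Q with hz0
  have hz00 : 0 < z0 := by positivity
  have hy1 : 0 < y1 := lt_of_lt_of_le hy0 hy
  have hz01 : z0 ≤ Q * y1 / X := by
    rw [hz0, div_le_div_iff₀ hQ hX]
    have h1 : X * y0 ≤ Q * y1 := mul_le_mul hXQ.le hy hy0.le hQ.le
    have h2 : 0 ≤ Q * y1 := by positivity
    nlinarith
  obtain ⟨n, hn⟩ := pow_unbounded_of_one_lt (Q * y1 / X / z0) (by norm_num : (1 : ℝ) < 2)
  rw [div_lt_iff₀ hz00] at hn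
  obtain ⟨D, hD, hDT⟩ := dyadn hA hP h z0 hz00 n
  set a := X * y0 with ha
  have ha0 : 0 < a := by positivity
  set S : ℝ := (Q - X) / X ^ 3 with hS
  have hS0 : 0 ≤ S := by
    have : 0 ≤ Q - X := by linarith
    positivity
  set g : ℝ → ℝ := fun δ => ((1 / X) * ((Real.pi + 5 * δ / a) * k 0 + 2 * Real.pi * Jm k ℓ + ε / 4) +
    5 * δ * (D / z0 ^ 2) * S) / (1 - 2 * δ / a) with hg
  have hg0 : ContinuousAt g 0 := by
    rw [hg]
    apply ContinuousAt.div (by fun_prop) (by fun_prop)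
    simp
  have hg1 : g 0 < (1 / X) * (Real.pi * (k 0 + 2 * Jm k ℓ) + ε) := by
    rw [hg]; simp only [mul_zero, zero_div, add_zero, sub_zero, div_one, zero_mul]
    apply mul_lt_mul_of_pos_left _ (by positivity)
    linarith
  have hQX : 0 < Q * y1 - X * y0 := by
    have h1 : X * y0 < Q * y0 := mul_lt_mul_of_pos_right hXQ hy0
    have h2 : Q * y0 ≤ Q * y1 := mul_le_mul_of_nonneg_left hy hQ.le
    linarith
  have hδ := tendsto_const_div_atTop_nhds_zero_nat (Q * y1 - X * y0)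
  have hgev := (hg0.tendsto.comp hδ).eventually (eventually_lt_nhds hg1)
  have hδ2 := hδ.eventually (eventually_lt_nhds (by positivity : (0 : ℝ) < a / 4))
  obtain ⟨N, hN1, hN2, hN3⟩ := (hgev.and (hδ2.and (eventually_gt_atTop 0))).exists
  simp only [Function.comp] at hN1
  set δ := (Q * y1 - X * y0) / N with hδd
  have hNpos : (0 : ℝ) < N := by exact_mod_cast hN3
  have hδ0 : 0 < δ := by positivity
  have hxj : xj a δ N = Q * y1 := by
    unfold xj
    rw [hδd, ha]
    field_simp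
    ring
  filter_upwards [core hA hP h a δ N ha0 hδ0 (by linarith) X Q hX hXQ (ε / 4) (by positivity), hDT] with T t1 t2
  have hT := T_upper a δ ha0 hδ0 N
  have hTT : TT a δ N ≤ Real.pi + 5 * δ / a := hT
  have hc := NU_cont h.cont ℓ T
  have hD1 : ∫ y in z0..(Q * y1 / X), NU k ℓ T y ≤ D := by
    refine le_trans ?_ t2
    apply intervalIntegral.integral_mono_interval le_rfl hz01 hn.le
    · exact Eventually.of_forall fun y => NU_nonneg h.nn _ _ _
    · exact hc.intervalIntegrable _ _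
  have hmain := t1 (fun x => ∫ y in y0..y1, qf x y / y ^ 2 * NU k ℓ T y) (5 * δ * (D / z0 ^ 2)) (by positivity)
    (fun x _ => intervalIntegral.integral_nonneg hy fun y _ =>
      mul_nonneg (div_nonneg (qf_nonneg _ _) (sq_nonneg _)) (NU_nonneg h.nn _ _ _))
    (H_cont _ hc y0 y1 hy0 hy).continuousOn (fun x hx => by
      have hx0 : 0 < x := hX.trans_le hx.1
      rw [hxj]
      have r1 : a / x ≤ y0 := by
        rw [div_le_iff₀ hx0, ha]
        have := mul_le_mul_of_nonneg_right hx.1 hy0.le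
        linarith
      have r2 : y1 ≤ Q * y1 / x := by
        rw [le_div_iff₀ hx0]
        have := mul_le_mul_of_nonneg_right hx.2 hy1.le
        linarith
      have r3 : z0 ≤ a / x := div_le_div_of_nonneg_left ha0.le hx0 hx.2
      have r4 : Q * y1 / x ≤ Q * y1 / X := div_le_div_of_nonneg_left (by positivity) hX hx.1
      have r5 : a / x ≤ Q * y1 / x := r1.trans (hy.trans r2)
      have hax : 0 < a / x := by positivity
      have hcI : ∀ c, IntervalIntegrable (fun y => (qf x y - c) / y ^ 2 * NU k ℓ T y) volume (a / x) (Q * y1 / x) := by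
        intro c
        apply ContinuousOn.intervalIntegrable
        rw [uIcc_of_le r5]
        exact (f_cont x c (a / x) (Q * y1 / x) hax).mul hc.continuousOn
      have hcI0 : IntervalIntegrable (fun y => qf x y / y ^ 2 * NU k ℓ T y) volume (a / x) (Q * y1 / x) := by
        have := hcI 0
        simpa using this
      have s1 : ∫ y in y0..y1, qf x y / y ^ 2 * NU k ℓ T y ≤
          ∫ y in (a / x)..(Q * y1 / x), qf x y / y ^ 2 * NU k ℓ T y := by
        apply intervalIntegral.integral_mono_interval r1 hy r2 _ hcI0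
        exact Eventually.of_forall fun y =>
          mul_nonneg (div_nonneg (qf_nonneg _ _) (sq_nonneg _)) (NU_nonneg h.nn _ _ _)
      have hcc : IntervalIntegrable (fun y => 5 * δ / z0 ^ 2 * NU k ℓ T y) volume (a / x) (Q * y1 / x) :=
        (continuous_const.mul hc).intervalIntegrable _ _
      have s2 : ∫ y in (a / x)..(Q * y1 / x), qf x y / y ^ 2 * NU k ℓ T y ≤
          ∫ y in (a / x)..(Q * y1 / x), ((qf x y - 5 * δ) / y ^ 2 * NU k ℓ T y + 5 * δ / z0 ^ 2 * NU k ℓ T y) := by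
        apply intervalIntegral.integral_mono_on r5 hcI0
        · exact (hcI _).add hcc
        intro y hy'
        have hyz : z0 ≤ y := r3.trans hy'.1
        have hyp : 0 < y := lt_of_lt_of_le hz00 hyz
        have u3 : 5 * δ / y ^ 2 ≤ 5 * δ / z0 ^ 2 := by
          apply div_le_div_of_nonneg_left (by positivity) (by positivity)
          exact pow_le_pow_left₀ hz00.le hyz 2
        have u4 := mul_le_mul_of_nonneg_right u3 (NU_nonneg h.nn ℓ T y)
        have u5 : qf x y / y ^ 2 * NU k ℓ T y = (qf x y - 5 * δ) / y ^ 2 * NU k ℓ T y + 5 * δ / y ^ 2 * NU k ℓ T y := by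
          ring
        rw [u5]; linarith
      rw [intervalIntegral.integral_add (hcI (5 * δ)) hcc, intervalIntegral.integral_const_mul] at s2
      have s3 : ∫ y in (a / x)..(Q * y1 / x), NU k ℓ T y ≤ D := by
        refine le_trans ?_ hD1
        apply intervalIntegral.integral_mono_interval r3 r5 r4
        · exact Eventually.of_forall fun y => NU_nonneg h.nn _ _ _
        · exact hc.intervalIntegrable _ _
      have s4 : 5 * δ / z0 ^ 2 * (∫ y in (a / x)..(Q * y1 / x), NU k ℓ T y) ≤ 5 * δ / z0 ^ 2 * D :=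
        mul_le_mul_of_nonneg_left s3 (by positivity)
      have s5 : 5 * δ / z0 ^ 2 * D = 5 * δ * (D / z0 ^ 2) := by ring
      linarith)
  have hd : 0 < 1 - 2 * δ / a := by
    rw [sub_pos, div_lt_one ha0]; linarith
  have hfin : ∫ x in X..Q, x⁻¹ ^ 3 * ∫ y in y0..y1, qf x y / y ^ 2 * NU k ℓ T y ≤ g δ := by
    rw [hg]
    simp only
    rw [le_div_iff₀ hd]
    have r1 : (1 / X) * (TT a δ N * k 0 + 2 * Real.pi * Jm k ℓ + ε / 4) ≤
        (1 / X) * ((Real.pi + 5 * δ / a) * k 0 + 2 * Real.pi * Jm k ℓ + ε / 4) := by gcongr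
    rw [← hS] at hmain
    linarith
  exact (hfin.trans hN1.le)

/-- the averaged bound on the side of the primes -/
theorem avg_stmt (h : UpperR) : AvgStmt := fun K hK hK0 ℓ hℓ hKs B hKB X Q ε hX hXQ hε =>
  avg_prime h K hK hK0 ℓ hℓ hKs B hKB X Q ε hX hXQ hε

end Pool.Agent.L5helper66.PVP
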